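import Pool.Agent.H180.Pa.Sys

/-! The popular products are nearly closed under products. -/

set_option autoImplicit false
set_option linter.unusedSectionVars false

open Finset
open scoped Classical

namespace Pool.Agent.H180.Pa

variable {Ω X Λ : Type} [Fintype Ω] [Fintype X] [Fintype Λ] {n : ℕ}

namespace Sys

variable (s : Sys Ω X Λ n)

/-- collinear triples -/
noncomputable def Col3 : Finset ((X × X) × X) :=
  univ.filter (fun t => ∃ l, s.I t.1.1 l ∧ s.I t.1.2 l ∧ s.I t.2 l)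

/-- the triples in general position all of whose pairs are popular -/
noncomputable def G3 : Finset ((X × X) × X) :=
  univ.filter (fun t => t ∉ s.Col3 ∧ (t.1.1, t.1.2) ∉ s.Unp ∧ (t.1.2, t.2) ∉ s.Unp ∧
    (t.1.1, t.2) ∉ s.Unp)

lemma Col3_card (hn : 2 ≤ n) : s.Col3.card ≤ n ^ 2 * (n + 1) ^ 3 := by
  have h1 : s.Col3 ⊆ univ.biUnion (fun l => (s.SX l ×ˢ s.SX l) ×ˢ s.SX l) := by
    rintro ⟨⟨x, y⟩, z⟩ ht
    obtain ⟨l, h1, h2, h3⟩ := (mem_filter.1 ht).2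
    exact mem_biUnion.2 ⟨l, mem_univ _, mem_product.2 ⟨mem_product.2 ⟨s.mem_SX.2 h1, s.mem_SX.2 h2⟩,
      s.mem_SX.2 h3⟩⟩
  have h2 := (card_le_card h1).trans card_biUnion_le
  calc s.Col3.card ≤ _ := h2
    _ ≤ ∑ l, (s.SX l).card * (n + 1) ^ 2 := by
        apply sum_le_sum
        intro l _
        rw [card_product, card_product]
        have := (s.card_SX hn l).2
        nlinarith [Nat.mul_le_mul this this, Nat.zero_le (s.SX l).card,
          Nat.mul_le_mul_left (s.SX l).card (Nat.mul_le_mul this this)]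
    _ = _ := by rw [← sum_mul, s.sum_SX]; ring

lemma card_G3 (hn : 2 ≤ n) : n ^ 6 ≤ s.G3.card + n ^ 2 * (n + 1) ^ 3 + 3 * (s.Unp.card * n ^ 2) := by
  have e1 : (univ : Finset ((X × X) × X)) ⊆ (s.G3 ∪ s.Col3) ∪
      ((univ.filter (fun t : (X × X) × X => (t.1.1, t.1.2) ∈ s.Unp)) ∪
      ((univ.filter (fun t : (X × X) × X => (t.1.2, t.2) ∈ s.Unp)) ∪
      (univ.filter (fun t : (X × X) × X => (t.1.1, t.2) ∈ s.Unp)))) := by
    intro t _
    simp only [mem_union, mem_filter, mem_univ, true_and, G3]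
    tauto
  have a1 : (univ.filter (fun t : (X × X) × X => (t.1.1, t.1.2) ∈ s.Unp)).card ≤ s.Unp.card * n ^ 2 := by
    rw [← s.cardX, ← card_univ, ← card_product]
    apply card_le_card_of_injOn (fun t => ((t.1.1, t.1.2), t.2))
    · intro t ht
      exact mem_coe.2 (mem_product.2 ⟨(mem_filter.1 (mem_coe.1 ht)).2, mem_univ _⟩)
    · rintro ⟨⟨a, b⟩, c⟩ _ ⟨⟨a', b'⟩, c'⟩ _ h
      simpa using h
  have a2 : (univ.filter (fun t : (X × X) × X => (t.1.2, t.2) ∈ s.Unp)).card ≤ s.Unp.card * n ^ 2 := by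
    rw [← s.cardX, ← card_univ, ← card_product]
    apply card_le_card_of_injOn (fun t => ((t.1.2, t.2), t.1.1))
    · intro t ht
      exact mem_coe.2 (mem_product.2 ⟨(mem_filter.1 (mem_coe.1 ht)).2, mem_univ _⟩)
    · rintro ⟨⟨a, b⟩, c⟩ _ ⟨⟨a', b'⟩, c'⟩ _ h
      simp only [Prod.mk.injEq] at h
      obtain ⟨⟨rfl, rfl⟩, rfl⟩ := h
      rfl
  have a3 : (univ.filter (fun t : (X × X) × X => (t.1.1, t.2) ∈ s.Unp)).card ≤ s.Unp.card * n ^ 2 := by
    rw [← s.cardX, ← card_univ, ← card_product]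
    apply card_le_card_of_injOn (fun t => ((t.1.1, t.2), t.1.2))
    · intro t ht
      exact mem_coe.2 (mem_product.2 ⟨(mem_filter.1 (mem_coe.1 ht)).2, mem_univ _⟩)
    · rintro ⟨⟨a, b⟩, c⟩ _ ⟨⟨a', b'⟩, c'⟩ _ h
      simp only [Prod.mk.injEq] at h
      obtain ⟨⟨rfl, rfl⟩, rfl⟩ := h
      rfl
  have e2 := card_le_card e1
  rw [card_univ, Fintype.card_prod, Fintype.card_prod, s.cardX] at e2
  have e3 := s.Col3_card hn
  have e4 := card_union_le (s.G3 ∪ s.Col3)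
      ((univ.filter (fun t : (X × X) × X => (t.1.1, t.1.2) ∈ s.Unp)) ∪
      ((univ.filter (fun t : (X × X) × X => (t.1.2, t.2) ∈ s.Unp)) ∪
      (univ.filter (fun t : (X × X) × X => (t.1.1, t.2) ∈ s.Unp))))
  have e5 := card_union_le s.G3 s.Col3
  have e6 := card_union_le (univ.filter (fun t : (X × X) × X => (t.1.1, t.1.2) ∈ s.Unp))
      ((univ.filter (fun t : (X × X) × X => (t.1.2, t.2) ∈ s.Unp)) ∪
      (univ.filter (fun t : (X × X) × X => (t.1.1, t.2) ∈ s.Unp)))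
  have e7 := card_union_le (univ.filter (fun t : (X × X) × X => (t.1.2, t.2) ∈ s.Unp))
      (univ.filter (fun t : (X × X) × X => (t.1.1, t.2) ∈ s.Unp))
  have e8 : n ^ 2 * n ^ 2 * n ^ 2 = n ^ 6 := by ring
  rw [e8] at e2
  omega

lemma pop_of {x y : X} (hn : 2 ≤ n) (hxy : x ≠ y) (hU : (x, y) ∉ s.Unp) :
    ∃ l, s.I x l ∧ s.I y l ∧ s.σ x * s.σ y ∈ Tl s.σ (s.SX l) := by
  obtain ⟨l, hx, hy⟩ := s.line x y
  refine ⟨l, hx, hy, mem_filter.2 ⟨mem_univ _, s.prod_ne hn hxy, ?_⟩⟩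
  by_contra hcon
  exact hU (mem_filter.2 ⟨mem_univ _, hxy, l, hx, hy, hcon⟩)

lemma G3_ne {x u y : X} (ht : ((x, u), y) ∈ s.G3) : x ≠ u ∧ u ≠ y ∧ x ≠ y := by
  have h1 := (mem_filter.1 ht).2.1
  refine ⟨?_, ?_, ?_⟩
  · rintro rfl
    obtain ⟨l, h2, h3⟩ := s.line x y
    exact h1 (mem_filter.2 ⟨mem_univ _, l, h2, h2, h3⟩)
  · rintro rfl
    obtain ⟨l, h2, h3⟩ := s.line x u
    exact h1 (mem_filter.2 ⟨mem_univ _, l, h2, h3, h3⟩)
  · rintro rfl
    obtain ⟨l, h2, h3⟩ := s.line x u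
    exact h1 (mem_filter.2 ⟨mem_univ _, l, h2, h3, h2⟩)

lemma Tg_of {l : Λ} {t : Equiv.Perm Ω} (ht : t ∈ Tl s.σ (s.SX l)) : t ∈ s.Tg :=
  mem_filter.2 ⟨mem_univ _, Or.inr ⟨l, ht⟩⟩

/-- the number of pairs with a product in `Tg` -/
lemma closure (hn : 14 ≤ n) :
    s.G3.card ≤ ((s.Tg ×ˢ s.Tg).filter (fun p => p.1 * p.2 ∈ s.Tg)).card := by
  apply card_le_card_of_injOn (fun t => (s.σ t.1.1 * s.σ t.1.2, s.σ t.1.2 * s.σ t.2))
  · rintro ⟨⟨x, u⟩, y⟩ ht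
    have ht' := mem_coe.1 ht
    obtain ⟨n1, n2, n3⟩ := s.G3_ne ht'
    obtain ⟨g1, g2, g3, g4⟩ := (mem_filter.1 ht').2
    obtain ⟨l1, _, _, h1⟩ := s.pop_of (by omega) n1 g2
    obtain ⟨l2, _, _, h2⟩ := s.pop_of (by omega) n2 g3
    obtain ⟨l3, _, _, h3⟩ := s.pop_of (by omega) n3 g4
    refine mem_coe.2 (mem_filter.2 ⟨mem_product.2 ⟨s.Tg_of h1, s.Tg_of h2⟩, ?_⟩)
    simp only
    have : s.σ x * s.σ u * (s.σ u * s.σ y) = s.σ x * s.σ y := by
      rw [mul_assoc, ← mul_assoc (s.σ u), s.inv, one_mul]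
    rw [this]
    exact s.Tg_of h3
  · rintro ⟨⟨x, u⟩, y⟩ ht ⟨⟨x', u'⟩, y'⟩ ht' heq
    simp only [Prod.mk.injEq] at heq
    obtain ⟨q1, q2⟩ := heq
    have ht1 := mem_coe.1 ht
    have ht2 := mem_coe.1 ht'
    obtain ⟨n1, n2, n3⟩ := s.G3_ne ht1
    obtain ⟨g1, g2, g3, g4⟩ := (mem_filter.1 ht1).2
    obtain ⟨l1, a1, b1, h1⟩ := s.pop_of (by omega) n1 g2
    obtain ⟨l2, a2, b2, h2⟩ := s.pop_of (by omega) n2 g3
    obtain ⟨n1', n2', n3'⟩ := s.G3_ne ht2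
    obtain ⟨g1', g2', g3', g4'⟩ := (mem_filter.1 ht2).2
    obtain ⟨l1', a1', b1', h1'⟩ := s.pop_of (by omega) n1' g2'
    obtain ⟨l2', a2', b2', h2'⟩ := s.pop_of (by omega) n2' g3'
    rw [← q1] at h1'
    rw [← q2] at h2'
    have e1 := s.Tl_unique hn h1 h1'
    have e2 := s.Tl_unique hn h2 h2'
    subst e1 e2
    have hl : l1 ≠ l2 := by
      rintro rfl
      exact g1 (mem_filter.2 ⟨mem_univ _, l1, a1, b1, b2⟩)
    have hu : u = u' := by
      by_contra hne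
      exact hl (s.line_un u u' l1 l2 hne b1 b1' a2 a2')
    subst hu
    have hx : x = x' := s.sig_ne (by omega) a1 a1' (mul_right_cancel q1)
    have hy : y = y' := s.sig_ne (by omega) b2 b2' (mul_left_cancel q2)
    rw [hx, hy]

/-- The subgroup close to the set of the popular products. -/
theorem exists_group (hn : 1000 ≤ n) (hB : 15000 * s.Bad.card ≤ n ^ 5) :
    ∃ G : Subgroup (Equiv.Perm Ω),
      5 * (univ.filter (fun g : Equiv.Perm Ω => g ∈ G)).card + 7 * n ≤ 7 * n ^ 3 ∧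
      14 * n ^ 3 < 15 * (s.Tg.filter (fun t => t ∈ G)).card + 14 * n := by
  have hU := s.Unp_le (by omega)
  have hG3 := s.card_G3 (by omega)
  have hcl := s.closure (by omega)
  have hT := s.Tg_card (by omega)
  have hsplit := card_filter_add_card_filter_not (s := s.Tg ×ˢ s.Tg) (fun p => p.1 * p.2 ∈ s.Tg)
  rw [card_product] at hsplit
  set τ := s.Tg.card with hτ
  set cl := ((s.Tg ×ˢ s.Tg).filter (fun p => p.1 * p.2 ∈ s.Tg)).card with hcl'
  set bp := ((s.Tg ×ˢ s.Tg).filter (fun p => ¬ p.1 * p.2 ∈ s.Tg)).card with hbp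
  -- `120 * β ≤ n ^ 6`
  set β := n ^ 2 * (n + 1) ^ 3 + 3 * (s.Unp.card * n ^ 2) with hβ
  have hβ1 : 130 * β ≤ n ^ 6 := by
    have h1 : (n - 1) * (15000 * s.Unp.card) ≤ 32 * n ^ 5 := by nlinarith
    have h2 : 999 * n ≤ 1000 * (n - 1) := by omega
    have h3 : 999 * n * (15000 * s.Unp.card) ≤ 1000 * (32 * n ^ 5) := by
      calc 999 * n * (15000 * s.Unp.card) ≤ 1000 * (n - 1) * (15000 * s.Unp.card) :=
            Nat.mul_le_mul_right _ h2
        _ = 1000 * ((n - 1) * (15000 * s.Unp.card)) := by ring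
        _ ≤ _ := Nat.mul_le_mul_left _ h1
    have h4 : 14985 * s.Unp.card ≤ 32 * n ^ 4 := by
      have h5 : n * (14985000 * s.Unp.card) ≤ n * (32000 * n ^ 4) := by
        calc n * (14985000 * s.Unp.card) = 999 * n * (15000 * s.Unp.card) := by ring
          _ ≤ 1000 * (32 * n ^ 5) := h3
          _ = n * (32000 * n ^ 4) := by ring
      have h6 := Nat.le_of_mul_le_mul_left h5 (by omega)
      omega
    have h7 : n ^ 2 * (n + 1) ^ 3 * 996 ≤ n ^ 6 := by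
      have h8 : (n + 1) ^ 3 * 996 ≤ n ^ 4 := by
        obtain ⟨k, rfl⟩ : ∃ k, n = 1000 + k := ⟨n - 1000, by omega⟩
        ring_nf
        nlinarith [Nat.zero_le k, Nat.zero_le (k ^ 2), Nat.zero_le (k ^ 3), Nat.zero_le (k ^ 4)]
      calc n ^ 2 * (n + 1) ^ 3 * 996 = n ^ 2 * ((n + 1) ^ 3 * 996) := by ring
        _ ≤ n ^ 2 * n ^ 4 := Nat.mul_le_mul_left _ h8
        _ = n ^ 6 := by ring
    have h9 : 14985 * (s.Unp.card * n ^ 2) ≤ 32 * n ^ 6 := by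
      calc 14985 * (s.Unp.card * n ^ 2) = 14985 * s.Unp.card * n ^ 2 := by ring
        _ ≤ 32 * n ^ 4 * n ^ 2 := Nat.mul_le_mul_right _ h4
        _ = _ := by ring
    rw [hβ]
    omega
  have hG : n ^ 6 ≤ cl + β := by rw [hβ]; omega
  have hτn : τ ≤ n ^ 3 := by omega
  have hττ : τ * τ ≤ n ^ 6 := by
    calc τ * τ ≤ n ^ 3 * n ^ 3 := Nat.mul_le_mul hτn hτn
      _ = n ^ 6 := by ring
  have hbpβ : bp ≤ β := by omega
  have hτ2 : n ^ 6 ≤ τ * τ + β := by omega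
  have hn6 : 0 < n ^ 6 := by positivity
  have e1 : ∀ (i : DecidablePred (fun p : Equiv.Perm Ω × Equiv.Perm Ω => p.1 * p.2 ∉ s.Tg)),
      (@filter _ (fun p : Equiv.Perm Ω × Equiv.Perm Ω => p.1 * p.2 ∉ s.Tg) i (s.Tg ×ˢ s.Tg)).card = bp := by
    intro i
    rw [hbp]
    congr!
  obtain ⟨G, hG1, hG2⟩ := near_subgroup s.Tg (by
    rw [e1, ← hτ]
    nlinarith)
  rw [e1, ← hτ] at hG2
  refine ⟨G, ?_, ?_⟩
  · have e0 : (univ.filter (fun h : Equiv.Perm Ω => h ∈ G)).card ≤ (univ.filter (fun h : Equiv.Perm Ω => h ∈ G)).card := le_rfl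
    omega
  have e2 := card_filter_add_card_filter_not (s := s.Tg) (fun t => t ∈ G)
  rw [← hτ] at e2
  set c1 := (s.Tg.filter (fun t => t ∈ G)).card with hc1
  set c2 := (s.Tg.filter (fun t => t ∉ G)).card with hc2
  -- `c2 * τ ≤ 7 β`, `n ^ 6 ≤ τ ^ 2 + β`
  have hn3 : 0 < n ^ 3 := by positivity
  have f1 : 129 * n ^ 6 ≤ 130 * (τ * τ) := by omega
  have f2 : 129 * n ^ 3 ≤ 130 * τ := by
    by_contra hcon
    push Not at hcon
    have g1 : (130 * τ) * (130 * τ) < (129 * n ^ 3) * (129 * n ^ 3) := Nat.mul_lt_mul'' hcon hcon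
    have g2 : (129 * n ^ 3) * (129 * n ^ 3) = 129 * (129 * n ^ 6) := by ring
    have g3 : (130 * τ) * (130 * τ) = 130 * (130 * (τ * τ)) := by ring
    omega
  have f3 : c2 * 129 ≤ 7 * n ^ 3 := by
    have g1 : 130 * (c2 * τ) ≤ 7 * n ^ 6 := by omega
    have g2 : c2 * (129 * n ^ 3) ≤ c2 * (130 * τ) := Nat.mul_le_mul_left _ f2
    have g3 : (c2 * 129) * n ^ 3 ≤ (7 * n ^ 3) * n ^ 3 := by
      calc (c2 * 129) * n ^ 3 = c2 * (129 * n ^ 3) := by ring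
        _ ≤ c2 * (130 * τ) := g2
        _ = 130 * (c2 * τ) := by ring
        _ ≤ 7 * n ^ 6 := g1
        _ = _ := by ring
    exact Nat.le_of_mul_le_mul_right g3 hn3
  omega

end Sys

end Pool.Agent.H180.Pa
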