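import Pool.Agent.H180.Pa.Clos
import Pool.Graph.R_pool_sql_team_seeded_620a6dc7.helper300_ppc_.Jordan

/-! The subgroup is sharply three-transitive, so the order is a prime power. -/

set_option autoImplicit false
set_option linter.unusedSectionVars false

open Finset
open scoped Classical

namespace Pool.Agent.H180.Pa

variable {Ω X Λ : Type} [Fintype Ω] [Fintype X] [Fintype Λ] {n : ℕ}

namespace Sys

variable (s : Sys Ω X Λ n) (G : Subgroup (Equiv.Perm Ω))

noncomputable def TG (l : Λ) : Finset (Equiv.Perm Ω) := (Tl s.σ (s.SX l)).filter (fun t => t ∈ G)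

noncomputable def Lb : Finset Λ := univ.filter (fun l => 2 * ((s.TG G l).card + 1) ≤ (s.SX l).card)

/-- the pairs of distinct points on a line of `Lb` -/
noncomputable def Db : Finset (Ω × Ω) :=
  univ.filter (fun p => p.1 ≠ p.2 ∧ ∀ l, s.J p.1 l → s.J p.2 l → l ∈ s.Lb G)

lemma Lb_card (hn : 2 ≤ n) (hG : 14 * n ^ 3 < 15 * (s.Tg.filter (fun t => t ∈ G)).card + 14 * n) :
    15 * ((s.Lb G).card * (n - 1)) ≤ 2 * (n ^ 3 - n) := by
  have h1 : ∀ l, (s.TG G l).card + 1 ≤ (s.SX l).card := fun l =>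
    (Nat.add_le_add_right (card_le_card (filter_subset _ _)) 1).trans
      ((s.ls l).Tl_card (s.UO_ne hn l))
  have h2 : ∑ l, 2 * ((s.TG G l).card + 1) + ∑ l ∈ s.Lb G, (s.SX l).card ≤ ∑ l, 2 * (s.SX l).card := by
    have e1 : ∑ l ∈ s.Lb G, (s.SX l).card = ∑ l, if l ∈ s.Lb G then (s.SX l).card else 0 := by
      rw [← sum_filter, filter_mem_eq_inter, univ_inter]
    rw [e1, ← sum_add_distrib]
    apply sum_le_sum
    intro l _
    have := h1 l
    by_cases hl : l ∈ s.Lb G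
    · rw [if_pos hl]
      have := (mem_filter.1 hl).2
      omega
    · rw [if_neg hl]
      omega
  have h3 : (s.Lb G).card * (n - 1) ≤ ∑ l ∈ s.Lb G, (s.SX l).card := by
    rw [← smul_eq_mul, ← sum_const]
    apply sum_le_sum
    intro l _
    have := (s.card_SX hn l).1
    omega
  have h4 := s.Tg_filter G
  have h5 : ∑ l, ((Tl s.σ (s.SX l)).filter (fun t => t ∈ G)).card = ∑ l, (s.TG G l).card := rfl
  rw [h5] at h4
  rw [← mul_sum, ← mul_sum, s.sum_SX, sum_add_distrib, sum_const, card_univ, s.cardL, smul_eq_mul,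
    mul_one] at h2
  have h6 : n ^ 2 * (n + 1) = n ^ 3 + n ^ 2 := by ring
  rw [h6] at h2
  have h7 : n ≤ n ^ 3 := Nat.le_self_pow (by norm_num) n
  omega

lemma Db_card : (s.Db G).card ≤ 2 * (s.Lb G).card := by
  have h1 : s.Db G ⊆ (s.Lb G).biUnion (fun l => (univ.filter (fun a => s.J a l)).offDiag) := by
    rintro ⟨p, q⟩ hp
    obtain ⟨hpq, h2⟩ := (mem_filter.1 hp).2
    obtain ⟨l, hl1, hl2⟩ := s.sec p q
    refine mem_biUnion.2 ⟨l, h2 l hl1 hl2, mem_offDiag.2 ⟨?_, ?_, hpq⟩⟩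
    · exact mem_filter.2 ⟨mem_univ _, hl1⟩
    · exact mem_filter.2 ⟨mem_univ _, hl2⟩
  refine (card_le_card h1).trans (card_biUnion_le.trans ?_)
  rw [mul_comm, ← smul_eq_mul, ← sum_const]
  apply sum_le_sum
  intro l _
  rw [offDiag_card]
  have := s.card_J l
  set k := (univ.filter (fun a => s.J a l)).card
  interval_cases k <;> omega

lemma three {D : Finset (Ω × Ω)} (hn : 20 ≤ n) (hO : Fintype.card Ω = n + 1)
    (hD : 15 * D.card ≤ 4 * (n * (n + 1))) :
    ∃ p q r : Ω, p ≠ q ∧ q ≠ r ∧ p ≠ r ∧ (p, q) ∉ D ∧ (p, r) ∉ D ∧ (q, r) ∉ D := by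
  by_contra hcon
  push Not at hcon
  have e1 : (univ : Finset ((Ω × Ω) × Ω)) ⊆
      ((univ.filter (fun t : (Ω × Ω) × Ω => t.1.1 = t.1.2)) ∪
      ((univ.filter (fun t : (Ω × Ω) × Ω => t.1.2 = t.2)) ∪
      (univ.filter (fun t : (Ω × Ω) × Ω => t.1.1 = t.2)))) ∪
      ((univ.filter (fun t : (Ω × Ω) × Ω => (t.1.1, t.1.2) ∈ D)) ∪
      ((univ.filter (fun t : (Ω × Ω) × Ω => (t.1.2, t.2) ∈ D)) ∪
      (univ.filter (fun t : (Ω × Ω) × Ω => (t.1.1, t.2) ∈ D)))) := by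
    rintro ⟨⟨p, q⟩, r⟩ _
    simp only [mem_union, mem_filter, mem_univ, true_and]
    have := hcon p q r
    tauto
  have a1 : (univ.filter (fun t : (Ω × Ω) × Ω => (t.1.1, t.1.2) ∈ D)).card ≤ D.card * (n + 1) := by
    rw [← hO, ← card_univ, ← card_product]
    apply card_le_card_of_injOn (fun t => ((t.1.1, t.1.2), t.2))
    · intro t ht
      exact mem_coe.2 (mem_product.2 ⟨(mem_filter.1 (mem_coe.1 ht)).2, mem_univ _⟩)
    · rintro ⟨⟨a, b⟩, c⟩ _ ⟨⟨a', b'⟩, c'⟩ _ h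
      simpa using h
  have a2 : (univ.filter (fun t : (Ω × Ω) × Ω => (t.1.2, t.2) ∈ D)).card ≤ D.card * (n + 1) := by
    rw [← hO, ← card_univ, ← card_product]
    apply card_le_card_of_injOn (fun t => ((t.1.2, t.2), t.1.1))
    · intro t ht
      exact mem_coe.2 (mem_product.2 ⟨(mem_filter.1 (mem_coe.1 ht)).2, mem_univ _⟩)
    · rintro ⟨⟨a, b⟩, c⟩ _ ⟨⟨a', b'⟩, c'⟩ _ h
      simp only [Prod.mk.injEq] at h
      obtain ⟨⟨rfl, rfl⟩, rfl⟩ := h
      rfl
  have a3 : (univ.filter (fun t : (Ω × Ω) × Ω => (t.1.1, t.2) ∈ D)).card ≤ D.card * (n + 1) := by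
    rw [← hO, ← card_univ, ← card_product]
    apply card_le_card_of_injOn (fun t => ((t.1.1, t.2), t.1.2))
    · intro t ht
      exact mem_coe.2 (mem_product.2 ⟨(mem_filter.1 (mem_coe.1 ht)).2, mem_univ _⟩)
    · rintro ⟨⟨a, b⟩, c⟩ _ ⟨⟨a', b'⟩, c'⟩ _ h
      simp only [Prod.mk.injEq] at h
      obtain ⟨⟨rfl, rfl⟩, rfl⟩ := h
      rfl
  have b1 : (univ.filter (fun t : (Ω × Ω) × Ω => t.1.1 = t.1.2)).card ≤ (n + 1) * (n + 1) := by
    rw [← hO, ← card_univ, ← card_product]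
    apply card_le_card_of_injOn (fun t => (t.1.1, t.2))
    · intro t ht; exact mem_coe.2 (mem_product.2 ⟨mem_univ _, mem_univ _⟩)
    · rintro ⟨⟨a, b⟩, c⟩ h1 ⟨⟨a', b'⟩, c'⟩ h2 h
      have h1' := (mem_filter.1 (mem_coe.1 h1)).2
      have h2' := (mem_filter.1 (mem_coe.1 h2)).2
      simp only [Prod.mk.injEq] at h h1' h2' ⊢
      obtain ⟨rfl, rfl⟩ := h
      subst h1' h2'
      exact ⟨⟨rfl, rfl⟩, rfl⟩
  have b2 : (univ.filter (fun t : (Ω × Ω) × Ω => t.1.2 = t.2)).card ≤ (n + 1) * (n + 1) := by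
    rw [← hO, ← card_univ, ← card_product]
    apply card_le_card_of_injOn (fun t => (t.1.1, t.2))
    · intro t ht; exact mem_coe.2 (mem_product.2 ⟨mem_univ _, mem_univ _⟩)
    · rintro ⟨⟨a, b⟩, c⟩ h1 ⟨⟨a', b'⟩, c'⟩ h2 h
      have h1' := (mem_filter.1 (mem_coe.1 h1)).2
      have h2' := (mem_filter.1 (mem_coe.1 h2)).2
      simp only [Prod.mk.injEq] at h h1' h2' ⊢
      obtain ⟨rfl, rfl⟩ := h
      subst h1' h2'
      exact ⟨⟨rfl, rfl⟩, rfl⟩
  have b3 : (univ.filter (fun t : (Ω × Ω) × Ω => t.1.1 = t.2)).card ≤ (n + 1) * (n + 1) := by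
    rw [← hO, ← card_univ, ← card_product]
    apply card_le_card_of_injOn (fun t => (t.1.1, t.1.2))
    · intro t ht; exact mem_coe.2 (mem_product.2 ⟨mem_univ _, mem_univ _⟩)
    · rintro ⟨⟨a, b⟩, c⟩ h1 ⟨⟨a', b'⟩, c'⟩ h2 h
      have h1' := (mem_filter.1 (mem_coe.1 h1)).2
      have h2' := (mem_filter.1 (mem_coe.1 h2)).2
      simp only [Prod.mk.injEq] at h h1' h2' ⊢
      obtain ⟨rfl, rfl⟩ := h
      subst h1' h2'
      exact ⟨⟨rfl, rfl⟩, rfl⟩
  have e2 := card_le_card e1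
  rw [card_univ, Fintype.card_prod, Fintype.card_prod, hO] at e2
  have e3 := (e2.trans (card_union_le _ _)).trans (Nat.add_le_add
    ((card_union_le _ _).trans (Nat.add_le_add b1 ((card_union_le _ _).trans (Nat.add_le_add b2 b3))))
    ((card_union_le _ _).trans (Nat.add_le_add a1 ((card_union_le _ _).trans (Nat.add_le_add a2 a3)))))
  -- `(n + 1)^3 ≤ 3 (n+1)^2 + 3 D (n + 1)`
  have e4 : (n + 1) * ((n + 1) * (n + 1)) ≤ (n + 1) * (3 * (n + 1) + 3 * D.card) := by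
    calc (n + 1) * ((n + 1) * (n + 1)) = (n + 1) * (n + 1) * (n + 1) := by ring
      _ ≤ _ := e3
      _ = _ := by ring
  have e5 := Nat.le_of_mul_le_mul_left e4 (by omega)
  nlinarith

/-- `G` has enough elements fixing `p` and `q`. -/
def Tr (G : Subgroup (Equiv.Perm Ω)) (p q : Ω) : Prop :=
  ∀ a b, a ≠ p → a ≠ q → b ≠ p → b ≠ q → ∃ g ∈ G, g p = p ∧ g q = q ∧ g a = b

lemma Tr_of (hn : 2 ≤ n) {p q : Ω} (hpq : p ≠ q) (h : (p, q) ∉ s.Db G) : Tr G p q := by
  have : ∃ l, s.J p l ∧ s.J q l ∧ l ∉ s.Lb G := by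
    by_contra hcon
    push Not at hcon
    exact h (mem_filter.2 ⟨mem_univ _, hpq, hcon⟩)
  obtain ⟨l, hp, hq, hl⟩ := this
  intro a b hap haq hbp hbq
  have ha : a ∈ s.UO l := by
    rw [s.mem_UO]
    intro hJ
    rcases s.J2 l p q a hp hq hJ with e | e | e
    · exact hpq e
    · exact haq e.symm
    · exact hap e.symm
  have hb : b ∈ s.UO l := by
    rw [s.mem_UO]
    intro hJ
    rcases s.J2 l p q b hp hq hJ with e | e | e
    · exact hpq e
    · exact hbq e.symm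
    · exact hbp e.symm
  have hl' : (s.SX l).card < 2 * ((s.TG G l).card + 1) := by
    by_contra hcon
    exact hl (mem_filter.2 ⟨mem_univ _, by omega⟩)
  have hUn := s.UO_ne hn l
  set T1 := insert 1 (s.TG G l) with hT1
  have h1 : (1 : Equiv.Perm Ω) ∉ s.TG G l := by
    intro hc
    exact ((mem_filter.1 (mem_filter.1 hc).1).2).1 rfl
  have hT1c : T1.card = (s.TG G l).card + 1 := card_insert_of_notMem h1
  have hpop : ∀ t ∈ T1, Pop s.σ (s.SX l) t ∧ t ∈ G := by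
    intro t ht
    rcases mem_insert.1 ht with e | e
    · rw [e]; exact ⟨(s.ls l).pop_one hUn, G.one_mem⟩
    · exact ⟨((mem_filter.1 (mem_filter.1 e).1).2).2, (mem_filter.1 e).2⟩
  have c1 : ∀ c ∈ s.UO l, (T1.image (fun t => t c)).card = T1.card := by
    intro c hc
    apply card_image_of_injOn
    intro t ht t' ht' hE
    exact (s.ls l).pop_ext (hpop t ht).1 (hpop t' ht').1 hc hE
  have hnd : ¬ Disjoint (T1.image (fun t => t a)) (T1.image (fun t => t b)) := by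
    intro hd
    have e1 := card_union_of_disjoint hd
    have e2 : (T1.image (fun t => t a) ∪ T1.image (fun t => t b)).card ≤ (s.UO l).card := by
      apply card_le_card
      apply union_subset
      · intro c hc
        obtain ⟨t, ht, rfl⟩ := mem_image.1 hc
        exact (s.ls l).pop_pres (hpop t ht).1 ha
      · intro c hc
        obtain ⟨t, ht, rfl⟩ := mem_image.1 hc
        exact (s.ls l).pop_pres (hpop t ht).1 hb
    rw [(s.ls l).card_eq hUn, e1, c1 a ha, c1 b hb] at e2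
    omega
  rw [not_disjoint_iff] at hnd
  obtain ⟨c, hc1, hc2⟩ := hnd
  obtain ⟨t, ht, htc⟩ := mem_image.1 hc1
  obtain ⟨t', ht', htc'⟩ := mem_image.1 hc2
  have htc1 : t a = c := htc
  have htc2 : t' b = c := htc'
  have fp : ∀ u ∈ T1, u p = p := fun u hu =>
    (s.ls l).pop_fix (hpop u hu).1 (by rw [s.mem_UO, not_not]; exact hp)
  have fq : ∀ u ∈ T1, u q = q := fun u hu =>
    (s.ls l).pop_fix (hpop u hu).1 (by rw [s.mem_UO, not_not]; exact hq)
  refine ⟨t'⁻¹ * t, G.mul_mem (G.inv_mem (hpop t' ht').2) (hpop t ht).2, ?_, ?_, ?_⟩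
  · rw [Equiv.Perm.mul_apply, fp t ht, Equiv.Perm.inv_eq_iff_eq, fp t' ht']
  · rw [Equiv.Perm.mul_apply, fq t ht, Equiv.Perm.inv_eq_iff_eq, fq t' ht']
  · rw [Equiv.Perm.mul_apply, htc1, Equiv.Perm.inv_eq_iff_eq, htc2]

end Sys

section Grp

variable (G : Subgroup (Equiv.Perm Ω))

/-- fixing `p`, one point to another -/
lemma one_pt {p q r : Ω} (hO : 3 < Fintype.card Ω) (hqr : q ≠ r) (hpq : p ≠ q) (hpr : p ≠ r)
    (h1 : Sys.Tr G p q) (h2 : Sys.Tr G p r) :
    ∀ a b, a ≠ p → b ≠ p → ∃ g ∈ G, g p = p ∧ g a = b := by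
  obtain ⟨c, hc⟩ : ∃ c, c ∉ ({p, q, r} : Finset Ω) := by
    by_contra hcon
    push Not at hcon
    have e1 : (univ : Finset Ω) ⊆ {p, q, r} := fun x _ => hcon x
    have e2 := card_le_card e1
    have e3 : ({p, q, r} : Finset Ω).card ≤ 3 := card_le_three
    rw [card_univ] at e2
    omega
  simp only [mem_insert, mem_singleton, not_or] at hc
  obtain ⟨hcp, hcq, hcr⟩ := hc
  have key : ∀ a, a ≠ p → ∃ g ∈ G, g p = p ∧ g a = c := by
    intro a ha
    by_cases haq : a = q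
    · subst haq
      obtain ⟨g, hg, g1, _, g3⟩ := h2 a c ha hqr hcp hcr
      exact ⟨g, hg, g1, g3⟩
    · obtain ⟨g, hg, g1, _, g3⟩ := h1 a c ha haq hcp hcq
      exact ⟨g, hg, g1, g3⟩
  intro a b ha hb
  obtain ⟨g, hg, g1, g2⟩ := key a ha
  obtain ⟨g', hg', g1', g2'⟩ := key b hb
  refine ⟨g'⁻¹ * g, G.mul_mem (G.inv_mem hg') hg, ?_, ?_⟩
  · rw [Equiv.Perm.mul_apply, g1, Equiv.Perm.inv_eq_iff_eq, g1']
  · rw [Equiv.Perm.mul_apply, g2, Equiv.Perm.inv_eq_iff_eq, g2']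

lemma trans {p q r : Ω} (hO : 3 < Fintype.card Ω) (hqr : q ≠ r) (hpq : p ≠ q) (hpr : p ≠ r)
    (h1 : Sys.Tr G p q) (h2 : Sys.Tr G p r) (h3 : Sys.Tr G q r) (h4 : Sys.Tr G q p) :
    ∀ x y z, x ≠ y → y ≠ z → x ≠ z → ∃ g ∈ G, g x = p ∧ g y = q ∧ g z = r := by
  have kp := one_pt G hO hqr hpq hpr h1 h2
  have kq := one_pt G hO hpr.symm (Ne.symm (Ne.symm hqr)) hpq.symm h3 h4
  have t1 : ∀ x, ∃ g ∈ G, g x = p := by
    intro x
    by_cases hx : x = q
    · subst hx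
      -- move q to r fixing p, then r to p fixing q
      obtain ⟨g, hg, g1, g2⟩ := kp x r hpq.symm hpr.symm
      obtain ⟨g', hg', g1', g2'⟩ := kq r p hqr.symm hpq
      exact ⟨g' * g, G.mul_mem hg' hg, by rw [Equiv.Perm.mul_apply, g2, g2']⟩
    · obtain ⟨g, hg, _, g2⟩ := kq x p hx hpq
      exact ⟨g, hg, g2⟩
  intro x y z hxy hyz hxz
  obtain ⟨g1, hg1, e1⟩ := t1 x
  have hy1 : g1 y ≠ p := fun e => hxy (g1.injective (by rw [e1, e]))
  obtain ⟨g2, hg2, e2, e3⟩ := kp (g1 y) q hy1 hpq.symm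
  have hz1 : g2 (g1 z) ≠ p := by
    intro e
    have : g2 (g1 z) = g2 (g1 x) := by rw [e, e1, e2]
    exact hxz (g1.injective (g2.injective this)).symm
  have hz2 : g2 (g1 z) ≠ q := by
    intro e
    have : g2 (g1 z) = g2 (g1 y) := by rw [e, e3]
    exact hyz (g1.injective (g2.injective this)).symm
  obtain ⟨g3, hg3, e4, e5, e6⟩ := h1 (g2 (g1 z)) r hz1 hz2 hpr.symm hqr.symm
  refine ⟨g3 * (g2 * g1), G.mul_mem hg3 (G.mul_mem hg2 hg1), ?_, ?_, ?_⟩
  · rw [Equiv.Perm.mul_apply, Equiv.Perm.mul_apply, e1, e2, e4]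
  · rw [Equiv.Perm.mul_apply, Equiv.Perm.mul_apply, e3, e5]
  · rw [Equiv.Perm.mul_apply, Equiv.Perm.mul_apply, e6]

/-- distinct triples -/
noncomputable def Tri (Ω : Type) [Fintype Ω] : Finset ((Ω × Ω) × Ω) :=
  univ.filter (fun t => t.1.1 ≠ t.1.2 ∧ t.1.2 ≠ t.2 ∧ t.1.1 ≠ t.2)

lemma Tri_card : (Fintype.card Ω) ^ 3 ≤ (Tri Ω).card + 3 * (Fintype.card Ω) ^ 2 := by
  have e1 : (univ : Finset ((Ω × Ω) × Ω)) ⊆ Tri Ω ∪
      ((univ.image (fun t : Ω × Ω => ((t.1, t.1), t.2))) ∪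
      ((univ.image (fun t : Ω × Ω => ((t.1, t.2), t.2))) ∪
      (univ.image (fun t : Ω × Ω => ((t.1, t.2), t.1))))) := by
    rintro ⟨⟨p, q⟩, r⟩ _
    simp only [mem_union, mem_image, mem_univ, true_and, Tri, mem_filter, Prod.mk.injEq, Prod.exists]
    by_cases h1 : p = q
    · subst h1; right; left; exact ⟨p, r, ⟨rfl, rfl⟩, rfl⟩
    · by_cases h2 : q = r
      · subst h2; right; right; left; exact ⟨p, q, ⟨rfl, rfl⟩, rfl⟩
      · by_cases h3 : p = r
        · subst h3; right; right; right; exact ⟨p, q, ⟨rfl, rfl⟩, rfl⟩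
        · left; exact ⟨h1, h2, h3⟩
  have i : (univ : Finset (Ω × Ω)).card = Fintype.card Ω ^ 2 := by
    rw [card_univ, Fintype.card_prod, sq]
  have e2 := (card_le_card e1).trans ((card_union_le _ _).trans (Nat.add_le_add_left
    ((card_union_le _ _).trans (Nat.add_le_add card_image_le ((card_union_le _ _).trans
    (Nat.add_le_add card_image_le card_image_le)))) _))
  rw [i, card_univ, Fintype.card_prod, Fintype.card_prod] at e2
  nlinarith

/-- a small three-transitive group is sharply three-transitive, and the degree minus one is a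
prime power -/
theorem sharp (hn : 100 ≤ n) (hO : Fintype.card Ω = n + 1) {p q r : Ω} (hpq : p ≠ q)
    (ht : ∀ x y z, x ≠ y → y ≠ z → x ≠ z → ∃ g ∈ G, g x = p ∧ g y = q ∧ g z = r)
    (hG : 5 * (univ.filter (fun g : Equiv.Perm Ω => g ∈ G)).card ≤ 7 * n ^ 3) : IsPrimePow n := by
  have tt : ∀ x y z x' y' z' : Ω, x ≠ y → y ≠ z → x ≠ z → x' ≠ y' → y' ≠ z' → x' ≠ z' →
      ∃ g ∈ G, g x = x' ∧ g y = y' ∧ g z = z' := by
    intro x y z x' y' z' h1 h2 h3 h1' h2' h3'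
    obtain ⟨g, hg, e1, e2, e3⟩ := ht x y z h1 h2 h3
    obtain ⟨g', hg', e1', e2', e3'⟩ := ht x' y' z' h1' h2' h3'
    refine ⟨g'⁻¹ * g, G.mul_mem (G.inv_mem hg') hg, ?_, ?_, ?_⟩
    · rw [Equiv.Perm.mul_apply, e1, Equiv.Perm.inv_eq_iff_eq, e1']
    · rw [Equiv.Perm.mul_apply, e2, Equiv.Perm.inv_eq_iff_eq, e2']
    · rw [Equiv.Perm.mul_apply, e3, Equiv.Perm.inv_eq_iff_eq, e3']
  have sh : ∀ h ∈ G, ∀ x y z : Ω, x ≠ y → y ≠ z → x ≠ z → h x = x → h y = y → h z = z → h = 1 := by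
    intro h hh x y z h1 h2 h3 f1 f2 f3
    by_contra hne
    have hex : ∀ t : (Ω × Ω) × Ω, t ∈ Tri Ω → ∃ g ∈ G, g x = t.1.1 ∧ g y = t.1.2 ∧ g z = t.2 := by
      intro t hT
      obtain ⟨k1, k2, k3⟩ := (mem_filter.1 hT).2
      exact tt x y z _ _ _ h1 h2 h3 k1 k2 k3
    choose! f hf1 hf2 hf3 hf4 using hex
    have hc : (Tri Ω ×ˢ (univ : Finset Bool)).card ≤ (univ.filter (fun g : Equiv.Perm Ω => g ∈ G)).card := by
      apply card_le_card_of_injOn (fun u => if u.2 then f u.1 * h else f u.1)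
      · rintro ⟨t, b⟩ hu
        have hT := (mem_product.1 (mem_coe.1 hu)).1
        refine mem_coe.2 (mem_filter.2 ⟨mem_univ _, ?_⟩)
        cases b
        · simpa using hf1 t hT
        · simpa using G.mul_mem (hf1 t hT) hh
      · rintro ⟨t, b⟩ hu ⟨t', b'⟩ hu' heq
        have hT := (mem_product.1 (mem_coe.1 hu)).1
        have hT' := (mem_product.1 (mem_coe.1 hu')).1
        simp only at heq hT hT'
        have vx : ∀ (u : (Ω × Ω) × Ω) (c : Bool), u ∈ Tri Ω →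
            (if c = true then f u * h else f u) x = u.1.1 ∧
            (if c = true then f u * h else f u) y = u.1.2 ∧
            (if c = true then f u * h else f u) z = u.2 := by
          intro u c hu
          cases c
          · simp only [Bool.false_eq_true, if_false]
            exact ⟨hf2 u hu, hf3 u hu, hf4 u hu⟩
          · simp only [if_true, Equiv.Perm.mul_apply, f1, f2, f3]
            exact ⟨hf2 u hu, hf3 u hu, hf4 u hu⟩
        have v1 := vx t b hT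
        have v2 := vx t' b' hT'
        rw [heq] at v1
        have htt : t = t' := by
          obtain ⟨⟨a, b⟩, c⟩ := t
          obtain ⟨⟨a', b'⟩, c'⟩ := t'
          simp only at v1 v2 ⊢
          rw [← v1.1, ← v1.2.1, ← v1.2.2, v2.1, v2.2.1, v2.2.2]
        subst htt
        cases b <;> cases b' <;> simp_all
    rw [card_product] at hc
    have hb : (univ : Finset Bool).card = 2 := by decide
    rw [hb] at hc
    have h6 := Tri_card (Ω := Ω)
    rw [hO] at h6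
    have h7 : 10 * (n + 1) ^ 3 ≤ 7 * n ^ 3 + 30 * (n + 1) ^ 2 := by omega
    nlinarith [Nat.mul_le_mul_left (n ^ 2) hn, Nat.mul_le_mul_left n hn]
  -- the stabilizer of `p`
  let K : Subgroup (Equiv.Perm {a : Ω // a ≠ p}) :=
    { carrier := {τ | ∃ g ∈ G, g p = p ∧ ∀ a : {a : Ω // a ≠ p}, (τ a : Ω) = g a}
      mul_mem' := by
        rintro τ τ' ⟨g, hg, g1, g2⟩ ⟨g', hg', g1', g2'⟩
        exact ⟨g * g', G.mul_mem hg hg', by rw [Equiv.Perm.mul_apply, g1', g1],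
          fun a => by rw [Equiv.Perm.mul_apply, Equiv.Perm.mul_apply, g2, g2']⟩
      one_mem' := ⟨1, G.one_mem, rfl, fun a => rfl⟩
      inv_mem' := by
        rintro τ ⟨g, hg, g1, g2⟩
        refine ⟨g⁻¹, G.inv_mem hg, by rw [Equiv.Perm.inv_eq_iff_eq, g1], fun a => ?_⟩
        symm
        rw [Equiv.Perm.inv_eq_iff_eq, ← g2]
        simp }
  have hcard : Fintype.card {a : Ω // a ≠ p} = n := by
    rw [Fintype.card_subtype_compl, Fintype.card_subtype_eq, hO]; rfl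
  have h2 : ∀ x y x' y' : {a : Ω // a ≠ p}, x ≠ y → x' ≠ y' → ∃ g ∈ K, g x = x' ∧ g y = y' := by
    intro x y x' y' hxy hxy'
    obtain ⟨g, hg, e1, e2, e3⟩ := tt p x y p x' y' x.2.symm (fun e => hxy (Subtype.ext e)) y.2.symm
      x'.2.symm (fun e => hxy' (Subtype.ext e)) y'.2.symm
    have hpres : ∀ a, a ≠ p ↔ g a ≠ p := by
      intro a
      constructor
      · intro ha he
        exact ha (g.injective (by rw [he, e1]))
      · rintro ha rfl
        exact ha e1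
    refine ⟨g.subtypePerm (fun a => (hpres a).symm), ⟨g, hg, e1, fun a => rfl⟩, ?_, ?_⟩
    · exact Subtype.ext e2
    · exact Subtype.ext e3
  have hr : ∀ g ∈ K, ∀ x y : {a : Ω // a ≠ p}, x ≠ y → g x = x → g y = y → g = 1 := by
    rintro τ ⟨g, hg, g1, g2⟩ x y hxy hx hy
    have e : g = 1 := sh g hg p x y x.2.symm (fun e => hxy (Subtype.ext e)) y.2.symm g1
      (by rw [← g2, hx]) (by rw [← g2, hy])
    ext a
    rw [g2, e]; rfl
  have := H300PPC.prime_power_of_sharply K h2 hr (by rw [hcard]; omega)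
  rwa [hcard] at this

end Grp

/-- **The abstract theorem.** -/
theorem Sys.main (s : Sys Ω X Λ n) (hn : 1000 ≤ n) (hB : 15000 * s.Bad.card ≤ n ^ 5) :
    IsPrimePow n := by
  obtain ⟨G, hG1, hG2⟩ := s.exists_group hn hB
  have h1 := s.Lb_card G (by omega) hG2
  have h2 := s.Db_card G
  have h3 : 15 * (s.Db G).card ≤ 4 * (n * (n + 1)) := by
    have e1 : n ^ 3 - n = (n - 1) * (n * (n + 1)) := by
      obtain ⟨k, rfl⟩ : ∃ k, n = k + 1 := ⟨n - 1, by omega⟩
      have : (k + 1) ^ 3 = (k + 1 - 1) * ((k + 1) * (k + 1 + 1)) + (k + 1) := by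
        simp only [Nat.add_sub_cancel]; ring
      omega
    rw [e1] at h1
    have e2 : (n - 1) * (15 * (s.Lb G).card) ≤ (n - 1) * (2 * (n * (n + 1))) := by
      calc (n - 1) * (15 * (s.Lb G).card) = 15 * ((s.Lb G).card * (n - 1)) := by ring
        _ ≤ _ := h1
        _ = _ := by ring
    have e3 := Nat.le_of_mul_le_mul_left e2 (by omega)
    omega
  obtain ⟨p, q, r, hpq, hqr, hpr, d1, d2, d3⟩ := Sys.three (by omega) s.cardO h3
  have d4 : (q, p) ∉ s.Db G := by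
    intro hc
    obtain ⟨_, hc2⟩ := (mem_filter.1 hc).2
    exact d1 (mem_filter.2 ⟨mem_univ _, hpq, fun l hl1 hl2 => hc2 l hl2 hl1⟩)
  have t1 := s.Tr_of G (by omega) hpq d1
  have t2 := s.Tr_of G (by omega) hpr d2
  have t3 := s.Tr_of G (by omega) hqr d3
  have t4 := s.Tr_of G (by omega) hpq.symm d4
  exact sharp G (by omega) s.cardO hpq
    (trans G (by rw [s.cardO]; omega) hqr hpq hpr t1 t2 t3 t4) (by omega)

end Pool.Agent.H180.Pa
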