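import Mathlib

/-! The involutions of an oval with centres on a line: if most products of three of them are
involutions then most of these products are again such involutions. -/

set_option autoImplicit false
set_option linter.unusedSectionVars false

open Finset
open scoped Classical

namespace Pool.Agent.H180.Pa

variable {Ω X : Type} [Fintype Ω] [Fintype X]

/-- `S` is a set of letters acting by involutions `σ x`, sharply transitively on `U` and all in the
same way off `U`. -/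
structure LineSys (σ : X → Equiv.Perm Ω) (S : Finset X) (U : Finset Ω) : Prop where
  inv : ∀ x ∈ S, σ x * σ x = 1
  ex : ∀ a ∈ U, ∀ b ∈ U, ∃ x ∈ S, σ x a = b
  un : ∀ a ∈ U, ∀ x ∈ S, ∀ y ∈ S, σ x a = σ y a → x = y
  pres : ∀ x ∈ S, ∀ a ∈ U, σ x a ∈ U
  same : ∀ x ∈ S, ∀ y ∈ S, ∀ a, a ∉ U → σ x a = σ y a

variable {σ : X → Equiv.Perm Ω} {S : Finset X} {U : Finset Ω}

noncomputable def bad (σ : X → Equiv.Perm Ω) (S : Finset X) : Finset ((X × X) × X) :=
  ((S ×ˢ S) ×ˢ S).filter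
    (fun t => ¬ (σ t.1.1 * σ t.1.2 * σ t.2 = σ t.2 * σ t.1.2 * σ t.1.1))

noncomputable def non (σ : X → Equiv.Perm Ω) (S : Finset X) : Finset ((X × X) × X) :=
  ((S ×ˢ S) ×ˢ S).filter (fun t => ¬ ∃ w ∈ S, σ t.1.1 * σ t.1.2 * σ t.2 = σ w)

namespace LineSys

variable (h : LineSys σ S U)
include h

lemma card_eq (hU : U.Nonempty) : U.card = S.card := by
  obtain ⟨a, ha⟩ := hU
  symm
  apply card_bij (fun x _ => σ x a)
  · intro x hx; exact h.pres x hx a ha
  · intro x hx y hy hxy; exact h.un a ha x hx y hy hxy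
  · intro b hb
    obtain ⟨x, hx, hxb⟩ := h.ex a ha b hb
    exact ⟨x, hx, hxb⟩

lemma invinv {x : X} (hx : x ∈ S) (a : Ω) : σ x (σ x a) = a := by
  have := h.inv x hx
  rw [← Equiv.Perm.mul_apply, this]; rfl

lemma pres' {x : X} (hx : x ∈ S) {a : Ω} (ha : a ∉ U) : σ x a ∉ U := by
  intro hc
  have := h.pres x hx _ hc
  rw [h.invinv hx] at this
  exact ha this

lemma ext2 {p q r s : X} (hp : p ∈ S) (hq : q ∈ S) (hr : r ∈ S) (hs : s ∈ S)
    (hU : ∀ a ∈ U, σ p (σ q a) = σ r (σ s a)) : σ p * σ q = σ r * σ s := by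
  ext a
  rw [Equiv.Perm.mul_apply, Equiv.Perm.mul_apply]
  by_cases ha : a ∈ U
  · exact hU a ha
  · rw [h.same q hq s hs a ha, h.same p hp r hr _ (h.pres' hs ha)]

/-- the letters which invert `σ x * σ y` -/
noncomputable def Zt (_h : LineSys σ S U) (x y : X) : Finset X :=
  S.filter (fun z => σ x * σ y * σ z = σ z * σ y * σ x)

lemma conj_rule {x y z : X} (_hx : x ∈ S) (_hy : y ∈ S)
    (hz : σ x * σ y * σ z = σ z * σ y * σ x) (a : Ω) :
    σ x (σ y (σ z a)) = σ z (σ y (σ x a)) := by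
  have := congrArg (fun g : Equiv.Perm Ω => g a) hz
  simpa [Equiv.Perm.mul_apply] using this

lemma conj_rule' {x y z : X} (hx : x ∈ S) (hy : y ∈ S) 
    (hz : σ x * σ y * σ z = σ z * σ y * σ x) (a : Ω) :
    σ y (σ x (σ z a)) = σ z (σ x (σ y a)) := by
  have h1 := h.conj_rule hx hy hz (σ x (σ y a))
  -- σ x (σ y (σ z (σ x (σ y a)))) = σ z (σ y (σ x (σ x (σ y a)))) = σ z a
  rw [h.invinv hx, h.invinv hy] at h1
  rw [← h1, h.invinv hx, h.invinv hy]

lemma good_eq (hUn : U.Nonempty) {x y x' y' : X} (hx : x ∈ S) (hy : y ∈ S) (hx' : x' ∈ S)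
    (hy' : y' ∈ S) (h1 : 3 * S.card < 4 * (h.Zt x y).card)
    (h2 : 3 * S.card < 4 * (h.Zt x' y').card) {a : Ω} (ha : a ∈ U)
    (hE : σ x (σ y a) = σ x' (σ y' a)) : σ x * σ y = σ x' * σ y' := by
  apply h.ext2 hx hy hx' hy'
  intro b hb
  set W := h.Zt x y ∩ h.Zt x' y' with hW
  have hWS : W ⊆ S := fun w hw => (mem_filter.1 (mem_inter.1 hw).1).1
  have hWc : S.card < 2 * W.card := by
    have e1 := card_union_add_card_inter (h.Zt x y) (h.Zt x' y')
    have e2 : (h.Zt x y ∪ h.Zt x' y').card ≤ S.card :=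
      card_le_card (union_subset (filter_subset _ _) (filter_subset _ _))
    rw [← hW] at e1
    omega
  have c1 : (W.image (fun w => σ w a)).card = W.card := by
    apply card_image_of_injOn
    intro w hw z hz hwz
    exact h.un a ha w (hWS hw) z (hWS hz) hwz
  have c2 : (W.image (fun w => σ w b)).card = W.card := by
    apply card_image_of_injOn
    intro w hw z hz hwz
    exact h.un b hb w (hWS hw) z (hWS hz) hwz
  have hnd : ¬ Disjoint (W.image (fun w => σ w a)) (W.image (fun w => σ w b)) := by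
    intro hd
    have e1 := card_union_of_disjoint hd
    have e2 : (W.image (fun w => σ w a) ∪ W.image (fun w => σ w b)).card ≤ U.card := by
      apply card_le_card
      apply union_subset
      · intro c hc
        obtain ⟨w, hw, rfl⟩ := mem_image.1 hc
        exact h.pres w (hWS hw) a ha
      · intro c hc
        obtain ⟨w, hw, rfl⟩ := mem_image.1 hc
        exact h.pres w (hWS hw) b hb
    rw [h.card_eq hUn] at e2
    omega
  rw [not_disjoint_iff] at hnd
  obtain ⟨c, hc1, hc2⟩ := hnd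
  obtain ⟨w, hw, hwc⟩ := mem_image.1 hc1
  obtain ⟨z, hz, hzc⟩ := mem_image.1 hc2
  have hwS := hWS hw
  have hzS := hWS hz
  have hb' : b = σ z (σ w a) := by
    show b = σ z (σ w a)
    have e : σ w a = σ z b := by rw [show σ w a = c from hwc, show σ z b = c from hzc]
    rw [e, h.invinv hzS]
  have rz := (mem_filter.1 (mem_inter.1 hz).1).2
  have rz' := (mem_filter.1 (mem_inter.1 hz).2).2
  have rw1 := (mem_filter.1 (mem_inter.1 hw).1).2
  have rw1' := (mem_filter.1 (mem_inter.1 hw).2).2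
  have l1 : σ x (σ y b) = σ z (σ w (σ x (σ y a))) := by
    rw [hb', h.conj_rule hx hy rz, h.conj_rule' hx hy rw1]
  have l2 : σ x' (σ y' b) = σ z (σ w (σ x' (σ y' a))) := by
    rw [hb', h.conj_rule hx' hy' rz', h.conj_rule' hx' hy' rw1']
  rw [l1, l2, hE]

theorem non_le (hUn : U.Nonempty) : (non σ S).card ≤ 8 * (bad σ S).card := by
  set m := S.card with hm
  have hUm : U.card = m := h.card_eq hUn
  have hmpos : 0 < m := by rw [← hUm]; exact card_pos.2 hUn
  set B2 := (S ×ˢ S).filter (fun p => 4 * (h.Zt p.1 p.2).card ≤ 3 * m) with hB2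
  have hi : m * B2.card ≤ 4 * (bad σ S).card := by
    have e1 : (bad σ S).card =
        ∑ p ∈ S ×ˢ S, (S.filter (fun z => ¬ (σ p.1 * σ p.2 * σ z = σ z * σ p.2 * σ p.1))).card := by
      unfold bad
      simp only [card_filter]
      rw [sum_product]
    rw [e1]
    calc m * B2.card = ∑ p ∈ B2, m := by rw [sum_const, smul_eq_mul, mul_comm]
      _ ≤ ∑ p ∈ B2, 4 * (S.filter (fun z => ¬ (σ p.1 * σ p.2 * σ z = σ z * σ p.2 * σ p.1))).card := by
          apply sum_le_sum
          intro p hp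
          have e2 := (mem_filter.1 hp).2
          have e3 := card_filter_add_card_filter_not (s := S)
            (fun z => σ p.1 * σ p.2 * σ z = σ z * σ p.2 * σ p.1)
          have e4 : (h.Zt p.1 p.2).card = (S.filter (fun z => σ p.1 * σ p.2 * σ z = σ z * σ p.2 * σ p.1)).card := rfl
          omega
      _ ≤ ∑ p ∈ S ×ˢ S, 4 * (S.filter (fun z => ¬ (σ p.1 * σ p.2 * σ z = σ z * σ p.2 * σ p.1))).card :=
          sum_le_sum_of_subset (filter_subset _ _)
      _ = _ := by rw [mul_sum]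
  set Sec := ((S ×ˢ S) ×ˢ S).filter (fun t => ∀ a ∈ U, ∀ w ∈ S,
    σ w (σ t.2 a) = σ t.1.1 (σ t.1.2 a) → (w, t.2) ∈ B2) with hSec
  have hsub : non σ S ⊆ (B2 ×ˢ S) ∪ Sec := by
    rintro ⟨⟨x, y⟩, z⟩ ht
    obtain ⟨ht1, ht2⟩ := mem_filter.1 ht
    obtain ⟨ht3, hz⟩ := mem_product.1 ht1
    obtain ⟨hx, hy⟩ := mem_product.1 ht3
    simp only at hx hy hz ht2
    rw [mem_union]
    by_cases hb : (x, y) ∈ B2
    · left; exact mem_product.2 ⟨hb, hz⟩
    · right
      refine mem_filter.2 ⟨ht1, ?_⟩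
      intro a ha w hw hwa
      by_contra hwz
      apply ht2
      refine ⟨w, hw, ?_⟩
      have g1 : 3 * S.card < 4 * (h.Zt x y).card := by
        by_contra hcon
        exact hb (mem_filter.2 ⟨mem_product.2 ⟨hx, hy⟩, by simp only; omega⟩)
      have g2 : 3 * S.card < 4 * (h.Zt w z).card := by
        by_contra hcon
        exact hwz (mem_filter.2 ⟨mem_product.2 ⟨hw, hz⟩, by simp only; omega⟩)
      have e := h.good_eq hUn hx hy hw hz g1 g2 ha hwa.symm
      rw [e, mul_assoc, h.inv z hz, mul_one]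
  have hSecc : m * Sec.card ≤ (B2.card * m) * m := by
    obtain ⟨x0, _⟩ := card_pos.1 hmpos
    have : Nonempty X := ⟨x0⟩
    have : (Sec ×ˢ U).card ≤ ((B2 ×ˢ U) ×ˢ S).card := by
      have hex : ∀ s : ((X × X) × X) × Ω, s ∈ Sec ×ˢ U →
          ∃ w ∈ S, σ w (σ s.1.2 s.2) = σ s.1.1.1 (σ s.1.1.2 s.2) := by
        rintro ⟨⟨⟨x, y⟩, z⟩, a⟩ hs
        obtain ⟨hs1, ha⟩ := mem_product.1 hs
        obtain ⟨ht1, ht2⟩ := mem_filter.1 hs1
        obtain ⟨ht3, hz⟩ := mem_product.1 ht1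
        obtain ⟨hx, hy⟩ := mem_product.1 ht3
        exact h.ex _ (h.pres z hz a ha) _ (h.pres x hx _ (h.pres y hy a ha))
      choose! f hf1 hf2 using hex
      apply card_le_card_of_injOn (fun s => (((f s, s.1.2), s.2), s.1.1.2))
      · rintro ⟨⟨⟨x, y⟩, z⟩, a⟩ hs
        have hs' := mem_coe.1 hs
        obtain ⟨hs1, ha⟩ := mem_product.1 hs'
        obtain ⟨ht1, ht2⟩ := mem_filter.1 hs1
        obtain ⟨ht3, hz⟩ := mem_product.1 ht1
        obtain ⟨hx, hy⟩ := mem_product.1 ht3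
        refine mem_coe.2 (mem_product.2 ⟨mem_product.2 ⟨?_, ha⟩, hy⟩)
        exact ht2 a ha _ (hf1 _ hs') (hf2 _ hs')
      · rintro ⟨⟨⟨x, y⟩, z⟩, a⟩ hs ⟨⟨⟨x', y'⟩, z'⟩, a'⟩ hs' heq
        simp only [Prod.mk.injEq] at heq
        obtain ⟨⟨⟨e1, e2⟩, e3⟩, e4⟩ := heq
        subst e2 e3 e4
        have k1 := hf2 _ (mem_coe.1 hs)
        have k2 := hf2 _ (mem_coe.1 hs')
        rw [e1] at k1
        simp only at k1 k2
        rw [k1] at k2
        obtain ⟨hs1, ha⟩ := mem_product.1 (mem_coe.1 hs)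
        obtain ⟨ht1, ht2⟩ := mem_filter.1 hs1
        obtain ⟨ht3, hz⟩ := mem_product.1 ht1
        obtain ⟨hx, hy⟩ := mem_product.1 ht3
        obtain ⟨hs1', ha'⟩ := mem_product.1 (mem_coe.1 hs')
        obtain ⟨ht1', ht2'⟩ := mem_filter.1 hs1'
        obtain ⟨ht3', hz'⟩ := mem_product.1 ht1'
        obtain ⟨hx', hy'⟩ := mem_product.1 ht3'
        have := h.un _ (h.pres y hy a ha) x hx x' hx' k2
        rw [this]
    rw [card_product, card_product, card_product, hUm, ← hm] at this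
    linarith [mul_comm Sec.card m]
  have hSecc2 : Sec.card ≤ B2.card * m := by
    have : Sec.card * m ≤ (B2.card * m) * m := by linarith [mul_comm Sec.card m]
    exact Nat.le_of_mul_le_mul_right this hmpos
  have hc := card_le_card hsub
  have hc2 := card_union_le (B2 ×ˢ S) Sec
  rw [card_product, ← hm] at hc2
  have : m * B2.card = B2.card * m := mul_comm _ _
  omega

end LineSys

/-- the letters `z` for which `t` is of the form `σ w * σ z` -/
noncomputable def Vt (σ : X → Equiv.Perm Ω) (S : Finset X) (t : Equiv.Perm Ω) : Finset X :=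
  S.filter (fun z => ∃ w ∈ S, t = σ w * σ z)

/-- `t` is of the form `σ w * σ z` for more than three quarters of the letters `z` -/
def Pop (σ : X → Equiv.Perm Ω) (S : Finset X) (t : Equiv.Perm Ω) : Prop :=
  3 * S.card < 4 * (Vt σ S t).card

/-- the nontrivial popular products -/
noncomputable def Tl (σ : X → Equiv.Perm Ω) (S : Finset X) : Finset (Equiv.Perm Ω) :=
  univ.filter (fun t => t ≠ 1 ∧ Pop σ S t)

/-- the pairs with an unpopular product -/
noncomputable def unp (σ : X → Equiv.Perm Ω) (S : Finset X) : Finset (X × X) :=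
  (S ×ˢ S).filter (fun p => ¬ Pop σ S (σ p.1 * σ p.2))

namespace LineSys

variable (h : LineSys σ S U)
include h

theorem unp_le (hUn : U.Nonempty) : S.card * (unp σ S).card ≤ 32 * (bad σ S).card := by
  have h8 := h.non_le hUn
  have e1 : (non σ S).card =
      ∑ p ∈ S ×ˢ S, (S.filter (fun z => ¬ ∃ w ∈ S, σ p.1 * σ p.2 * σ z = σ w)).card := by
    unfold non
    simp only [card_filter]
    rw [sum_product]
  have : S.card * (unp σ S).card ≤ 4 * (non σ S).card := by
    rw [e1]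
    calc S.card * (unp σ S).card = ∑ p ∈ unp σ S, S.card := by rw [sum_const, smul_eq_mul, mul_comm]
      _ ≤ ∑ p ∈ unp σ S, 4 * (S.filter (fun z => ¬ ∃ w ∈ S, σ p.1 * σ p.2 * σ z = σ w)).card := by
          apply sum_le_sum
          intro p hp
          have e2 := (mem_filter.1 hp).2
          have e3 := card_filter_add_card_filter_not (s := S)
            (fun z => ∃ w ∈ S, σ p.1 * σ p.2 * σ z = σ w)
          have e4 : (S.filter (fun z => ∃ w ∈ S, σ p.1 * σ p.2 * σ z = σ w)).card ≤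
              (Vt σ S (σ p.1 * σ p.2)).card := by
            apply card_le_card
            intro z hz
            obtain ⟨hz1, w, hw, hzw⟩ := mem_filter.1 hz
            refine mem_filter.2 ⟨hz1, w, hw, ?_⟩
            rw [← hzw, mul_assoc, h.inv z hz1, mul_one]
          unfold Pop at e2
          omega
      _ ≤ ∑ p ∈ S ×ˢ S, 4 * (S.filter (fun z => ¬ ∃ w ∈ S, σ p.1 * σ p.2 * σ z = σ w)).card :=
          sum_le_sum_of_subset (filter_subset _ _)
      _ = _ := by rw [mul_sum]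
  omega

lemma pop_one (hUn : U.Nonempty) : Pop σ S 1 := by
  have : Vt σ S 1 = S := by
    unfold Vt
    rw [filter_true_of_mem]
    intro z hz
    exact ⟨z, hz, (h.inv z hz).symm⟩
  unfold Pop
  rw [this]
  have := h.card_eq hUn
  have := card_pos.2 hUn
  omega

lemma pop_ext {t t' : Equiv.Perm Ω} (ht : Pop σ S t) (ht' : Pop σ S t') {a : Ω} (ha : a ∈ U)
    (hE : t a = t' a) : t = t' := by
  unfold Pop at ht ht'
  have e1 := card_union_add_card_inter (Vt σ S t) (Vt σ S t')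
  have e2 : (Vt σ S t ∪ Vt σ S t').card ≤ S.card :=
    card_le_card (union_subset (filter_subset _ _) (filter_subset _ _))
  have e3 : 0 < (Vt σ S t ∩ Vt σ S t').card := by omega
  obtain ⟨z, hz⟩ := card_pos.1 e3
  obtain ⟨hzS, w, hw, rfl⟩ := mem_filter.1 (mem_inter.1 hz).1
  obtain ⟨_, w', hw', rfl⟩ := mem_filter.1 (mem_inter.1 hz).2
  rw [Equiv.Perm.mul_apply, Equiv.Perm.mul_apply] at hE
  rw [h.un _ (h.pres z hzS a ha) w hw w' hw' hE]

lemma pop_pres {t : Equiv.Perm Ω} (ht : Pop σ S t) {a : Ω} (ha : a ∈ U) : t a ∈ U := by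
  unfold Pop at ht
  obtain ⟨z, hz⟩ := card_pos.1 (show 0 < (Vt σ S t).card by omega)
  obtain ⟨hzS, w, hw, rfl⟩ := mem_filter.1 hz
  exact h.pres w hw _ (h.pres z hzS a ha)

lemma pop_fix {t : Equiv.Perm Ω} (ht : Pop σ S t) {a : Ω} (ha : a ∉ U) : t a = a := by
  unfold Pop at ht
  obtain ⟨z, hz⟩ := card_pos.1 (show 0 < (Vt σ S t).card by omega)
  obtain ⟨hzS, w, hw, rfl⟩ := mem_filter.1 hz
  rw [Equiv.Perm.mul_apply, h.same w hw z hzS _ (h.pres' hzS ha), h.invinv hzS]

lemma Tl_fpf (hUn : U.Nonempty) {t : Equiv.Perm Ω} (ht : t ∈ Tl σ S) {a : Ω} (ha : a ∈ U) :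
    t a ≠ a := by
  intro hc
  obtain ⟨h1, h2⟩ := (mem_filter.1 ht).2
  exact h1 (h.pop_ext h2 (h.pop_one hUn) ha (by rw [hc]; rfl))

theorem Tl_card (hUn : U.Nonempty) : (Tl σ S).card + 1 ≤ S.card := by
  obtain ⟨a, ha⟩ := hUn
  have h1 : (Tl σ S).card ≤ (U.erase a).card := by
    apply card_le_card_of_injOn (fun t => t a)
    · intro t ht
      have ht' := mem_coe.1 ht
      refine mem_coe.2 (mem_erase.2 ⟨h.Tl_fpf ⟨a, ha⟩ ht' ha, h.pop_pres ((mem_filter.1 ht').2.2) ha⟩)
    · intro t ht t' ht' hE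
      exact h.pop_ext ((mem_filter.1 (mem_coe.1 ht)).2.2) ((mem_filter.1 (mem_coe.1 ht')).2.2) ha hE
  rw [card_erase_of_mem ha, h.card_eq ⟨a, ha⟩] at h1
  have h2 := h.card_eq ⟨a, ha⟩
  have h3 := card_pos.2 (⟨a, ha⟩ : U.Nonempty)
  omega

end LineSys

end Pool.Agent.H180.Pa
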