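import Mathlib

/-! A finite subset of a group that is nearly closed under products is close to a subgroup. -/

set_option autoImplicit false

open Finset
open scoped Classical

namespace Pool.Agent.H180.Pa

section Near

variable {Γ : Type} [Group Γ] [Fintype Γ]

/-- The number of elements of `F` that left multiplication by `x` maps out of `F`. -/
noncomputable def miss (F : Finset Γ) (x : Γ) : ℕ :=
  (F.filter (fun f => x * f ∉ F)).card

lemma miss_one (F : Finset Γ) : miss F 1 = 0 := by
  unfold miss
  rw [card_eq_zero, filter_eq_empty_iff]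
  intro f hf
  simpa using hf

lemma miss_mul (F : Finset Γ) (x y : Γ) : miss F (x * y) ≤ miss F x + miss F y := by
  unfold miss
  have hsub : F.filter (fun f => x * y * f ∉ F) ⊆
      F.filter (fun f => y * f ∉ F) ∪
        (F.filter (fun g => x * g ∉ F)).image (fun g => y⁻¹ * g) := by
    intro f hf
    simp only [mem_filter, mem_union, mem_image] at *
    by_cases h : y * f ∈ F
    · right
      refine ⟨y * f, ⟨h, ?_⟩, by simp⟩
      rw [← mul_assoc]; exact hf.2
    · left; exact ⟨hf.1, h⟩
  have h1 := card_le_card hsub
  have h2 := card_union_le (F.filter (fun f => y * f ∉ F))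
    ((F.filter (fun g => x * g ∉ F)).image (fun g => y⁻¹ * g))
  have h3 := card_image_le (s := F.filter (fun g => x * g ∉ F)) (f := fun g => y⁻¹ * g)
  omega

lemma hit_inv (F : Finset Γ) (x : Γ) :
    (F.filter (fun f => x * f ∈ F)).card = (F.filter (fun f => x⁻¹ * f ∈ F)).card := by
  apply card_bij (fun f _ => x * f)
  · intro a ha
    simp only [mem_filter] at *
    refine ⟨ha.2, ?_⟩
    simpa using ha.1
  · intro a _ b _ h; exact mul_left_cancel h
  · intro b hb
    simp only [mem_filter] at hb
    refine ⟨x⁻¹ * b, ?_, by simp⟩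
    simp only [mem_filter]
    exact ⟨hb.2, by simpa using hb.1⟩

lemma miss_inv (F : Finset Γ) (x : Γ) : miss F x⁻¹ = miss F x := by
  unfold miss
  have h1 := card_filter_add_card_filter_not (s := F) (fun f => x * f ∈ F)
  have h2 := card_filter_add_card_filter_not (s := F) (fun f => x⁻¹ * f ∈ F)
  have h3 := hit_inv F x
  omega

lemma sum_miss (F : Finset Γ) :
    ((F ×ˢ F).filter (fun p => p.1 * p.2 ∉ F)).card = ∑ g ∈ F, miss F g := by
  unfold miss
  simp only [card_filter, sum_product]

/-- If less than `3 / 98` of the products of two elements of `F` are not in `F`, then `F` is close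
to a subgroup. -/
theorem near_subgroup (F : Finset Γ)
    (hbad : 98 * ((F ×ˢ F).filter (fun p => p.1 * p.2 ∉ F)).card < 3 * F.card ^ 2) :
    ∃ H : Subgroup Γ, 5 * (univ.filter (fun h : Γ => h ∈ H)).card ≤ 7 * F.card ∧
      (F.filter (fun f => f ∉ H)).card * F.card
        ≤ 7 * ((F ×ˢ F).filter (fun p => p.1 * p.2 ∉ F)).card := by
  set n := F.card with hn
  set bad := ((F ×ˢ F).filter (fun p => p.1 * p.2 ∉ F)).card with hbaddef
  have hnpos : 0 < n := by
    rcases Nat.eq_zero_or_pos n with h | h
    · rw [h] at hbad; simp at hbad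
    · exact h
  set F' := F.filter (fun g => 7 * miss F g ≤ n) with hF'
  set K := F.filter (fun g => ¬ (7 * miss F g ≤ n)) with hK
  -- Markov
  have hK1 : K.card * n ≤ 7 * bad := by
    rw [hbaddef, sum_miss]
    calc K.card * n = ∑ g ∈ K, n := by simp
      _ ≤ ∑ g ∈ K, 7 * miss F g := by
          apply sum_le_sum
          intro g hg
          simp only [hK, mem_filter] at hg
          omega
      _ ≤ ∑ g ∈ F, 7 * miss F g := by
          apply sum_le_sum_of_subset
          exact filter_subset _ _
      _ = 7 * ∑ g ∈ F, miss F g := by rw [mul_sum]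
  have hK2 : 14 * K.card < 3 * n := by
    have : 14 * K.card * n < 3 * n * n := by nlinarith
    exact Nat.lt_of_mul_lt_mul_right this
  have hFK : F'.card + K.card = n := by
    rw [hF', hK, hn]
    exact card_filter_add_card_filter_not (s := F) (fun g => 7 * miss F g ≤ F.card)
  -- factorisation
  have key : ∀ z : Γ, 7 * miss F z ≤ 4 * n → ∃ f ∈ F', ∃ f' ∈ F', z = f' * f⁻¹ := by
    intro z hz
    by_contra hcon
    push Not at hcon
    have hsub : F ⊆ F.filter (fun f => z * f ∉ F) ∪ (K ∪ K.image (fun g => z⁻¹ * g)) := by
      intro f hf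
      simp only [mem_union, mem_filter, mem_image]
      by_cases h1 : z * f ∈ F
      · right
        by_cases h2 : f ∈ K
        · left; exact h2
        · right
          have hf' : f ∈ F' := by
            simp only [hF', hK, mem_filter] at *
            tauto
          have h3 : z * f ∉ F' := by
            intro h4
            exact hcon f hf' (z * f) h4 (by simp)
          refine ⟨z * f, ?_, by simp⟩
          simp only [hF', hK, mem_filter] at *
          tauto
      · left; exact ⟨hf, h1⟩
    have h1 := card_le_card hsub
    have h2 := card_union_le (F.filter (fun f => z * f ∉ F)) (K ∪ K.image (fun g => z⁻¹ * g))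
    have h3 := card_union_le K (K.image (fun g => z⁻¹ * g))
    have h4 := card_image_le (s := K) (f := fun g => z⁻¹ * g)
    have h5 : (F.filter (fun f => z * f ∉ F)).card = miss F z := rfl
    rw [h5] at h2
    rw [← hn] at h1
    omega
  have fac_small : ∀ f ∈ F', ∀ f' ∈ F', 7 * miss F (f' * f⁻¹) ≤ 2 * n := by
    intro f hf f' hf'
    have h1 := miss_mul F f' f⁻¹
    rw [miss_inv] at h1
    simp only [hF', mem_filter] at hf hf'
    omega
  let H : Subgroup Γ :=
    { carrier := {x | 7 * miss F x ≤ 2 * n}
      mul_mem' := by
        intro x y hx hy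
        simp only [Set.mem_ofPred_eq] at *
        obtain ⟨f, hf, f', hf', he⟩ := key (x * y) (by have := miss_mul F x y; omega)
        rw [he]; exact fac_small f hf f' hf'
      one_mem' := by
        simp only [Set.mem_ofPred_eq, miss_one]; omega
      inv_mem' := by
        intro x hx
        simp only [Set.mem_ofPred_eq, miss_inv] at *
        exact hx }
  have hHmem : ∀ x, x ∈ H ↔ 7 * miss F x ≤ 2 * n := fun x => Iff.rfl
  have hF'H : ∀ f ∈ F', f ∈ H := by
    intro f hf
    rw [hHmem]
    simp only [hF', mem_filter] at hf
    omega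
  refine ⟨H, ?_, ?_⟩
  · -- each element of `H` is a quotient of two elements of `F` in at least `5 n / 7` ways
    set A := univ.filter (fun h : Γ => h ∈ H) with hA
    have h1 : ∑ h ∈ A, (F.filter (fun f => h * f ∈ F)).card ≤ n * n := by
      have e1 : ∑ h ∈ A, (F.filter (fun f => h * f ∈ F)).card =
          (A.sigma (fun h => F.filter (fun f => h * f ∈ F))).card := (card_sigma _ _).symm
      rw [e1, hn, ← card_product]
      apply card_le_card_of_injOn (fun s => (s.1 * s.2, s.2))
      · intro s hs
        have hs' := mem_sigma.1 (mem_coe.1 hs)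
        have := mem_filter.1 hs'.2
        exact mem_coe.2 (mem_product.2 ⟨this.2, this.1⟩)
      · rintro ⟨a, b⟩ _ ⟨c, d⟩ _ h
        simp only [Prod.mk.injEq] at h
        obtain ⟨h1, rfl⟩ := h
        have := mul_right_cancel h1
        rw [this]
    have h2 : ∀ h ∈ A, 5 * n ≤ 7 * (F.filter (fun f => h * f ∈ F)).card := by
      intro h hh
      have h3 : 7 * miss F h ≤ 2 * n := (hHmem h).1 (mem_filter.1 hh).2
      have h4 := card_filter_add_card_filter_not (s := F) (fun f => h * f ∈ F)
      unfold miss at h3
      omega
    have h5 : A.card * (5 * n) ≤ 7 * (n * n) := by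
      calc A.card * (5 * n) = ∑ h ∈ A, 5 * n := by simp
        _ ≤ ∑ h ∈ A, 7 * (F.filter (fun f => h * f ∈ F)).card := sum_le_sum h2
        _ = 7 * ∑ h ∈ A, (F.filter (fun f => h * f ∈ F)).card := by rw [mul_sum]
        _ ≤ _ := by omega
    have h6 : 5 * A.card * n ≤ 7 * n * n := by nlinarith
    exact Nat.le_of_mul_le_mul_right h6 hnpos
  · have hsub : F.filter (fun f => f ∉ H) ⊆ K := by
      intro f hf
      simp only [mem_filter] at hf
      by_contra hfK
      have hf' : f ∈ F' := by
        simp only [hF', hK, mem_filter] at *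
        tauto
      exact hf.2 (hF'H f hf')
    have := card_le_card hsub
    calc _ ≤ K.card * n := Nat.mul_le_mul_right _ this
      _ ≤ _ := hK1

end Near

end Pool.Agent.H180.Pa
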