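import Pool.Agent.H180.Pa.Fin

/-! Ovals of finite projective planes and their involutions. -/

set_option autoImplicit false
set_option linter.unusedSectionVars false

open Finset Configuration Configuration.ProjectivePlane
open scoped Classical

namespace Pool.Agent.H180.Pa

/-- `O` is an oval: `n + 1` points, no three of them on a line. -/
def Oval (L : Type) {P : Type} [Membership P L] [ProjectivePlane P L] (O : Set P) : Prop :=
  O.ncard = order P L + 1 ∧
    ∀ a ∈ O, ∀ b ∈ O, ∀ c ∈ O, ∀ m : L, a ∈ m → b ∈ m → c ∈ m → a = b ∨ b = c ∨ a = c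

/-- The line through `x` and `a` meets `O` in `a` and `b` only. -/
def Sec (L : Type) {P : Type} [Membership P L] (O : Set P) (x a b : P) : Prop :=
  a ∈ O ∧ b ∈ O ∧ ∃ m : L, x ∈ m ∧ a ∈ m ∧ b ∈ m ∧ ∀ c ∈ O, c ∈ m → c = a ∨ c = b

variable {P L : Type} [Membership P L] [ProjectivePlane P L]

lemma line_uniq {p q : P} {l m : L} (hpq : p ≠ q) (h1 : p ∈ l) (h2 : q ∈ l) (h3 : p ∈ m)
    (h4 : q ∈ m) : l = m := by
  rcases Nondegenerate.eq_or_eq h1 h2 h3 h4 with h | h
  · exact absurd h hpq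
  · exact h

lemma pt_uniq {p q : P} {l m : L} (hlm : l ≠ m) (h1 : p ∈ l) (h2 : q ∈ l) (h3 : p ∈ m)
    (h4 : q ∈ m) : p = q := by
  rcases Nondegenerate.eq_or_eq h1 h2 h3 h4 with h | h
  · exact h
  · exact absurd h hlm

lemma ex_line [Finite P] [Finite L] (p q : P) : ∃ l : L, p ∈ l ∧ q ∈ l := by
  by_cases h : p = q
  · subst h
    have h1 := lineCount_eq (L := L) p
    unfold lineCount at h1
    have h2 : 0 < Nat.card {l : L // p ∈ l} := by omega
    obtain ⟨⟨l, hl⟩⟩ := (Nat.card_pos_iff.1 h2).1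
    exact ⟨l, hl, hl⟩
  · exact ⟨HasLines.mkLine h, HasLines.mkLine_ax h⟩

lemma ex_pt {l m : L} (h : l ≠ m) : ∃ p : P, p ∈ l ∧ p ∈ m :=
  ⟨HasPoints.mkPoint h, HasPoints.mkPoint_ax h⟩

section

variable [Finite P] [Finite L] {O : Set P} (hO : Oval L O)
include hO

lemma card_O [Fintype P] : (univ.filter (fun c : P => c ∈ O)).card = order P L + 1 := by
  rw [← hO.1]
  have : (↑(univ.filter (fun c : P => c ∈ O)) : Set P) = O := by ext; simp
  rw [← Set.ncard_coe_finset, this]

lemma sec_ex {x a : P} (_hx : x ∉ O) (ha : a ∈ O) : ∃ b, Sec L O x a b := by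
  obtain ⟨m, hxm, ham⟩ := ex_line (L := L) x a
  by_cases h : ∃ b ∈ O, b ∈ m ∧ b ≠ a
  · obtain ⟨b, hb, hbm, hba⟩ := h
    refine ⟨b, ha, hb, m, hxm, ham, hbm, fun c hc hcm => ?_⟩
    rcases hO.2 a ha b hb c hc m ham hbm hcm with e | e | e
    · exact absurd e.symm hba
    · exact Or.inr e.symm
    · exact Or.inl e.symm
  · push Not at h
    exact ⟨a, ha, ha, m, hxm, ham, ham, fun c hc hcm => Or.inl (h c hc hcm)⟩

omit hO in
lemma sec_un {x a b b' : P} (hx : x ∉ O) (h : Sec L O x a b) (h' : Sec L O x a b') : b = b' := by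
  obtain ⟨ha, hb, m, h1, h2, h3, h4⟩ := h
  obtain ⟨_, hb', m', h1', h2', h3', h4'⟩ := h'
  have hxa : x ≠ a := fun e => hx (e ▸ ha)
  have hm := line_uniq hxa h1 h2 h1' h2'
  subst hm
  rcases h4 b' hb' h3' with e | e
  · rcases h4' b hb h3 with e' | e'
    · rw [e, e']
    · exact e'
  · exact e.symm

omit hO in
lemma sec_symm {x a b : P} (h : Sec L O x a b) : Sec L O x b a := by
  obtain ⟨ha, hb, m, h1, h2, h3, h4⟩ := h
  exact ⟨hb, ha, m, h1, h3, h2, fun c hc hcm => (h4 c hc hcm).symm⟩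

/-- there is exactly one tangent at every point -/
lemma tangent {a : P} (ha : a ∈ O) :
    ∃ m : L, (a ∈ m ∧ ∀ c ∈ O, c ∈ m → c = a) ∧
      ∀ m' : L, a ∈ m' → (∀ c ∈ O, c ∈ m' → c = a) → m' = m := by
  have := Fintype.ofFinite P
  have := Fintype.ofFinite L
  set A : Finset L := univ.filter (fun m : L => a ∈ m) with hA
  have hAc : A.card = order P L + 1 := by
    rw [← lineCount_eq (L := L) a]
    unfold lineCount
    rw [Nat.card_eq_fintype_card, Fintype.card_subtype]
  set B : Finset P := (univ.filter (fun c : P => c ∈ O)).erase a with hB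
  have hBc : B.card = order P L := by
    rw [hB, card_erase_of_mem (mem_filter.2 ⟨mem_univ _, ha⟩)]
    rw [card_O hO]; rfl
  have hex : ∀ c : P, c ∈ B → ∃ l : L, a ∈ l ∧ c ∈ l := fun c _ => ex_line a c
  have : Nonempty L := by
    obtain ⟨l, _⟩ := ex_line (L := L) a a
    exact ⟨l⟩
  choose! f hf1 hf2 using hex
  have himg : (B.image f).card = order P L := by
    rw [← hBc]
    apply card_image_of_injOn
    intro c hc d hd hcd
    have hc' := mem_erase.1 (mem_coe.1 hc)
    have hd' := mem_erase.1 (mem_coe.1 hd)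
    rcases hO.2 a ha c (mem_filter.1 hc'.2).2 d (mem_filter.1 hd'.2).2 (f c) (hf1 c (mem_coe.1 hc))
      (hf2 c (mem_coe.1 hc)) (hcd ▸ hf2 d (mem_coe.1 hd)) with e | e | e
    · exact absurd e.symm hc'.1
    · exact e
    · exact absurd e.symm hd'.1
  have hsub : B.image f ⊆ A := by
    intro l hl
    obtain ⟨c, hc, rfl⟩ := mem_image.1 hl
    exact mem_filter.2 ⟨mem_univ _, hf1 c hc⟩
  have hone : (A \ B.image f).card = 1 := by
    rw [card_sdiff_of_subset hsub, hAc, himg]; omega
  obtain ⟨m, hm⟩ := card_eq_one.1 hone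
  have hmm : m ∈ A \ B.image f := by rw [hm]; exact mem_singleton_self m
  have char : ∀ l : L, a ∈ l → (l ∉ B.image f ↔ ∀ c ∈ O, c ∈ l → c = a) := by
    intro l hl
    constructor
    · intro h c hc hcl
      by_contra hne
      have hcB : c ∈ B := mem_erase.2 ⟨hne, mem_filter.2 ⟨mem_univ _, hc⟩⟩
      apply h
      refine mem_image.2 ⟨c, hcB, ?_⟩
      exact line_uniq (Ne.symm hne) (hf1 c hcB) (hf2 c hcB) hl hcl
    · intro h hc
      obtain ⟨c, hcB, rfl⟩ := mem_image.1 hc
      have := mem_erase.1 hcB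
      exact this.1 (h c (mem_filter.1 this.2).2 (hf2 c hcB))
  refine ⟨m, ⟨(mem_filter.1 (Finset.mem_sdiff.1 hmm).1).2, ?_⟩, ?_⟩
  · exact (char m (mem_filter.1 (Finset.mem_sdiff.1 hmm).1).2).1 (Finset.mem_sdiff.1 hmm).2
  · intro m' h1 h2
    have : m' ∈ A \ B.image f :=
      Finset.mem_sdiff.2 ⟨mem_filter.2 ⟨mem_univ _, h1⟩, (char m' h1).2 h2⟩
    rw [hm] at this
    exact mem_singleton.1 this

lemma sec_line {l : L} {a b : P} (ha : a ∈ O) (hb : b ∈ O) (hal : a ∉ l) (hbl : b ∉ l) :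
    ∃ x, x ∉ O ∧ x ∈ l ∧ Sec L O x a b := by
  by_cases hab : a = b
  · subst hab
    obtain ⟨m, ⟨hm1, hm2⟩, _⟩ := tangent hO ha
    have hml : m ≠ l := fun e => hal (e ▸ hm1)
    obtain ⟨x, hxm, hxl⟩ := ex_pt (P := P) hml
    refine ⟨x, fun hx => ?_, hxl, ha, ha, m, hxm, hm1, hm1, fun c hc hcm => Or.inl (hm2 c hc hcm)⟩
    exact hal (hm2 x hx hxm ▸ hxl)
  · obtain ⟨m, ham, hbm⟩ := ex_line (L := L) a b
    have hml : m ≠ l := fun e => hal (e ▸ ham)
    obtain ⟨x, hxm, hxl⟩ := ex_pt (P := P) hml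
    refine ⟨x, fun hx => ?_, hxl, ha, hb, m, hxm, ham, hbm, fun c hc hcm => ?_⟩
    · rcases hO.2 a ha b hb x hx m ham hbm hxm with e | e | e
      · exact hab e
      · exact hbl (e ▸ hxl)
      · exact hal (e ▸ hxl)
    · rcases hO.2 a ha b hb c hc m ham hbm hcm with e | e | e
      · exact absurd e hab
      · exact Or.inr e.symm
      · exact Or.inl e.symm

lemma sec_line_un {l : L} {a b x y : P} (hal : a ∉ l) (hxl : x ∈ l)
    (hyl : y ∈ l) (h : Sec L O x a b) (h' : Sec L O y a b) : x = y := by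
  obtain ⟨ha, hb, m, h1, h2, h3, h4⟩ := h
  obtain ⟨_, _, m', h1', h2', h3', h4'⟩ := h'
  have hmm : m = m' := by
    by_cases hab : a = b
    · subst hab
      obtain ⟨t, _, ht⟩ := tangent hO ha
      rw [ht m h2 (fun c hc hcm => by rcases h4 c hc hcm with e | e <;> exact e),
        ht m' h2' (fun c hc hcm => by rcases h4' c hc hcm with e | e <;> exact e)]
    · exact line_uniq hab h2 h3 h2' h3'
  subst hmm
  have hml : m ≠ l := fun e => hal (e ▸ h2)
  exact pt_uniq hml h1 h1' hxl hyl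

/-- the involution with centre `x` -/
noncomputable def inv (x : {x : P // x ∉ O}) : Equiv.Perm {a : P // a ∈ O} :=
  Function.Involutive.toPerm
    (fun a => ⟨(sec_ex hO x.2 a.2).choose, (sec_ex hO x.2 a.2).choose_spec.2.1⟩) (by
      intro a
      apply Subtype.ext
      have h1 := (sec_ex hO x.2 a.2).choose_spec
      have h2 := (sec_ex hO x.2 h1.2.1).choose_spec
      exact sec_un x.2 h2 (sec_symm h1))

lemma inv_spec (x : {x : P // x ∉ O}) (a : {a : P // a ∈ O}) :
    Sec L O (x : P) (a : P) (inv hO x a : P) := (sec_ex hO x.2 a.2).choose_spec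

lemma inv_eq {x : {x : P // x ∉ O}} {a b : {a : P // a ∈ O}} (h : Sec L O (x : P) (a : P) (b : P)) :
    inv hO x a = b := Subtype.ext (sec_un x.2 (inv_spec hO x a) h)

lemma inv_mul (x : {x : P // x ∉ O}) : inv hO x * inv hO x = 1 := by
  ext a
  rw [Equiv.Perm.mul_apply]
  have : inv hO x (inv hO x a) = a := inv_eq hO (sec_symm (inv_spec hO x a))
  rw [this]; rfl

lemma inv_mem {l : L} {x : {x : P // x ∉ O}} {a : {a : P // a ∈ O}} (hx : (x : P) ∈ l)
    (ha : (a : P) ∈ l) : (inv hO x a : P) ∈ l := by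
  obtain ⟨h1, _, m, h2, h3, h4, _⟩ := inv_spec hO x a
  have hxa : (x : P) ≠ a := fun e => x.2 (e ▸ h1)
  rwa [line_uniq hxa hx ha h2 h3]

end

/-- The system of an oval. -/
noncomputable def sys [Fintype P] [Fintype L] {O : Set P} (hO : Oval L O) :
    Sys {a : P // a ∈ O} {x : P // x ∉ O} L (order P L) where
  σ := inv hO
  I := fun x l => (x : P) ∈ l
  J := fun a l => (a : P) ∈ l
  inv := inv_mul hO
  ex := by
    intro l a b ha hb
    obtain ⟨x, hx, hxl, hs⟩ := sec_line hO a.2 b.2 ha hb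
    exact ⟨⟨x, hx⟩, hxl, inv_eq hO hs⟩
  un := by
    intro l a x y ha hx hy he
    have h1 := inv_spec hO x a
    have h2 := inv_spec hO y a
    rw [← he] at h2
    exact Subtype.ext (sec_line_un hO ha hx hy h1 h2)
  pres := by
    intro x l a hx
    constructor
    · intro h
      have := inv_mem hO hx h
      have e : inv hO x (inv hO x a) = a := inv_eq hO (sec_symm (inv_spec hO x a))
      rwa [e] at this
    · exact inv_mem hO hx
  same := by
    intro x y l a hx hy ha
    symm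
    apply inv_eq
    obtain ⟨h1, h2, m, h3, h4, h5, h6⟩ := inv_spec hO x a
    have hxa : (x : P) ≠ a := fun e => x.2 (e ▸ h1)
    have hm : m = l := line_uniq hxa h3 h4 hx ha
    subst hm
    exact ⟨h1, h2, m, hy, h4, h5, h6⟩
  line := fun x y => ex_line _ _
  line_un := fun x y l m hxy h1 h2 h3 h4 => line_uniq (fun e => hxy (Subtype.ext e)) h1 h2 h3 h4
  cardX := by
    have h1 := card_points P L
    have h2 := card_O hO
    rw [Fintype.card_subtype]
    have h4 := card_filter_add_card_filter_not (s := (univ : Finset P)) (fun c => c ∈ O)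
    rw [card_univ, h1] at h4
    omega
  cardO := by
    rw [Fintype.card_subtype, card_O hO]
  cardL := card_lines P L
  pencil := by
    intro x
    rw [← lineCount_eq (L := L) (x : P)]
    unfold lineCount
    rw [Nat.card_eq_fintype_card, Fintype.card_subtype]
  J2 := by
    intro l a b c ha hb hc
    rcases hO.2 a a.2 b b.2 c c.2 l ha hb hc with e | e | e
    · exact Or.inl (Subtype.ext e)
    · exact Or.inr (Or.inl (Subtype.ext e))
    · exact Or.inr (Or.inr (Subtype.ext e))
  sec := fun p q => ex_line _ _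

end Pool.Agent.H180.Pa
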