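import Pool.Agent.H180.Pa.Line
import Pool.Agent.H180.Pa.Near

/-! The system of the involutions of an oval, abstractly. -/

set_option autoImplicit false
set_option linter.unusedSectionVars false

open Finset
open scoped Classical

namespace Pool.Agent.H180.Pa

/-- The points `X` off an oval `Ω` of a plane of order `n`, with their involutions. -/
structure Sys (Ω X Λ : Type) [Fintype Ω] [Fintype X] [Fintype Λ] (n : ℕ) where
  σ : X → Equiv.Perm Ω
  I : X → Λ → Prop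
  J : Ω → Λ → Prop
  inv : ∀ x, σ x * σ x = 1
  ex : ∀ l a b, ¬ J a l → ¬ J b l → ∃ x, I x l ∧ σ x a = b
  un : ∀ l a x y, ¬ J a l → I x l → I y l → σ x a = σ y a → x = y
  pres : ∀ x l a, I x l → (J (σ x a) l ↔ J a l)
  same : ∀ x y l a, I x l → I y l → J a l → σ x a = σ y a
  line : ∀ x y, ∃ l, I x l ∧ I y l
  line_un : ∀ x y l m, x ≠ y → I x l → I y l → I x m → I y m → l = m
  cardX : Fintype.card X = n ^ 2
  cardO : Fintype.card Ω = n + 1
  cardL : Fintype.card Λ = n ^ 2 + n + 1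
  pencil : ∀ x, (univ.filter (fun l => I x l)).card = n + 1
  J2 : ∀ l a b c, J a l → J b l → J c l → a = b ∨ b = c ∨ a = c
  sec : ∀ p q, ∃ l, J p l ∧ J q l

variable {Ω X Λ : Type} [Fintype Ω] [Fintype X] [Fintype Λ] {n : ℕ}

namespace Sys

variable (s : Sys Ω X Λ n)

noncomputable def SX (l : Λ) : Finset X := univ.filter (fun x => s.I x l)
noncomputable def UO (l : Λ) : Finset Ω := univ.filter (fun a => ¬ s.J a l)

lemma mem_SX {l : Λ} {x : X} : x ∈ s.SX l ↔ s.I x l := by simp [SX]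
lemma mem_UO {l : Λ} {a : Ω} : a ∈ s.UO l ↔ ¬ s.J a l := by simp [UO]

lemma ls (l : Λ) : LineSys s.σ (s.SX l) (s.UO l) where
  inv := fun x _ => s.inv x
  ex := by
    intro a ha b hb
    obtain ⟨x, hx, hxa⟩ := s.ex l a b (s.mem_UO.1 ha) (s.mem_UO.1 hb)
    exact ⟨x, s.mem_SX.2 hx, hxa⟩
  un := fun a ha x hx y hy hxy => s.un l a x y (s.mem_UO.1 ha) (s.mem_SX.1 hx) (s.mem_SX.1 hy) hxy
  pres := fun x hx a ha => s.mem_UO.2 (fun hc => s.mem_UO.1 ha ((s.pres x l a (s.mem_SX.1 hx)).1 hc))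
  same := by
    intro x hx y hy a ha
    rw [s.mem_UO, not_not] at ha
    exact s.same x y l a (s.mem_SX.1 hx) (s.mem_SX.1 hy) ha

lemma card_J (l : Λ) : (univ.filter (fun a => s.J a l)).card ≤ 2 := by
  by_contra hcon
  push Not at hcon
  obtain ⟨a, b, c, ha, hb, hc, hab, hac, hbc⟩ := two_lt_card_iff.1 hcon
  have := s.J2 l a b c (by simpa using ha) (by simpa using hb) (by simpa using hc)
  tauto

lemma card_UO (l : Λ) : n ≤ (s.UO l).card + 1 ∧ (s.UO l).card ≤ n + 1 := by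
  have h1 := s.card_J l
  have h2 := card_filter_add_card_filter_not (s := (univ : Finset Ω)) (fun a => s.J a l)
  rw [card_univ, s.cardO] at h2
  unfold UO
  omega

lemma UO_ne (hn : 2 ≤ n) (l : Λ) : (s.UO l).Nonempty := by
  have := (s.card_UO l).1
  exact card_pos.1 (by omega)

lemma card_SX (hn : 2 ≤ n) (l : Λ) : n ≤ (s.SX l).card + 1 ∧ (s.SX l).card ≤ n + 1 := by
  rw [← (s.ls l).card_eq (s.UO_ne hn l)]
  exact s.card_UO l

lemma sum_SX : ∑ l, (s.SX l).card = n ^ 2 * (n + 1) := by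
  have h1 : ∑ l, (s.SX l).card = ∑ x, (univ.filter (fun l => s.I x l)).card := by
    unfold SX
    simp only [card_filter]
    rw [sum_comm]
  rw [h1, sum_congr rfl (fun x _ => s.pencil x), sum_const, card_univ, s.cardX, smul_eq_mul]

/-- all popular products -/
noncomputable def Tg : Finset (Equiv.Perm Ω) :=
  univ.filter (fun t => t = 1 ∨ ∃ l, t ∈ Tl s.σ (s.SX l))

lemma sum_Tl (hn : 2 ≤ n) : ∑ l, (Tl s.σ (s.SX l)).card + (n ^ 2 + n + 1) ≤ n ^ 2 * (n + 1) := by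
  rw [← s.sum_SX, ← s.cardL]
  have : ∑ l : Λ, ((Tl s.σ (s.SX l)).card + 1) ≤ ∑ l, (s.SX l).card :=
    sum_le_sum (fun l _ => (s.ls l).Tl_card (s.UO_ne hn l))
  rw [sum_add_distrib] at this
  simpa using this

lemma Tg_card (hn : 2 ≤ n) : s.Tg.card + n ≤ n ^ 3 := by
  have h1 : s.Tg ⊆ {1} ∪ univ.biUnion (fun l => Tl s.σ (s.SX l)) := by
    intro t ht
    rcases (mem_filter.1 ht).2 with h | ⟨l, h⟩
    · exact mem_union_left _ (mem_singleton.2 h)
    · exact mem_union_right _ (mem_biUnion.2 ⟨l, mem_univ _, h⟩)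
  have h2 := card_le_card h1
  have h3 := card_union_le ({1} : Finset (Equiv.Perm Ω)) (univ.biUnion (fun l => Tl s.σ (s.SX l)))
  have h4 : (univ.biUnion (fun l => Tl s.σ (s.SX l))).card ≤ ∑ l, (Tl s.σ (s.SX l)).card :=
    card_biUnion_le
  have h5 := s.sum_Tl hn
  rw [card_singleton] at h3
  nlinarith

lemma Tg_filter (G : Subgroup (Equiv.Perm Ω)) :
    (s.Tg.filter (fun t => t ∈ G)).card ≤ 1 + ∑ l, ((Tl s.σ (s.SX l)).filter (fun t => t ∈ G)).card := by
  have h1 : s.Tg.filter (fun t => t ∈ G) ⊆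
      {1} ∪ univ.biUnion (fun l => (Tl s.σ (s.SX l)).filter (fun t => t ∈ G)) := by
    intro t ht
    obtain ⟨ht1, ht2⟩ := mem_filter.1 ht
    rcases (mem_filter.1 ht1).2 with h | ⟨l, h⟩
    · exact mem_union_left _ (mem_singleton.2 h)
    · exact mem_union_right _ (mem_biUnion.2 ⟨l, mem_univ _, mem_filter.2 ⟨h, ht2⟩⟩)
  have h2 := card_le_card h1
  have h3 := card_union_le ({1} : Finset (Equiv.Perm Ω))
    (univ.biUnion (fun l => (Tl s.σ (s.SX l)).filter (fun t => t ∈ G)))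
  have h4 : (univ.biUnion (fun l => (Tl s.σ (s.SX l)).filter (fun t => t ∈ G))).card ≤
      ∑ l, ((Tl s.σ (s.SX l)).filter (fun t => t ∈ G)).card := card_biUnion_le
  rw [card_singleton] at h3
  omega

/-- A nontrivial popular product is popular on one line only. -/
lemma Tl_unique (hn : 14 ≤ n) {l l' : Λ} {t : Equiv.Perm Ω} (ht : t ∈ Tl s.σ (s.SX l))
    (ht' : t ∈ Tl s.σ (s.SX l')) : l = l' := by
  by_contra hll
  -- a point off both lines
  obtain ⟨a, ha, ha'⟩ : ∃ a, a ∈ s.UO l ∧ a ∈ s.UO l' := by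
    have e1 := card_union_add_card_inter (s.UO l) (s.UO l')
    have e2 : (s.UO l ∪ s.UO l').card ≤ n + 1 := by
      rw [← s.cardO]; exact card_le_univ _
    have e3 := (s.card_UO l).1
    have e4 := (s.card_UO l').1
    obtain ⟨a, ha⟩ := card_pos.1 (show 0 < (s.UO l ∩ s.UO l').card by omega)
    exact ⟨a, (mem_inter.1 ha).1, (mem_inter.1 ha).2⟩
  have hne := s.UO_ne (by omega) l
  have hne' := s.UO_ne (by omega) l'
  set b := t a with hb
  have hba : b ≠ a := (s.ls l).Tl_fpf hne ht ha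
  have hp := (mem_filter.1 ht).2.2
  have hp' := (mem_filter.1 ht').2.2
  set A1 := (Vt s.σ (s.SX l) t).image (fun z => s.σ z a) with hA1
  set A2 := (Vt s.σ (s.SX l') t).image (fun z => s.σ z a) with hA2
  have c1 : A1.card = (Vt s.σ (s.SX l) t).card := by
    apply card_image_of_injOn
    intro z hz w hw hzw
    exact (s.ls l).un a ha z (mem_filter.1 hz).1 w (mem_filter.1 hw).1 hzw
  have c2 : A2.card = (Vt s.σ (s.SX l') t).card := by
    apply card_image_of_injOn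
    intro z hz w hw hzw
    exact (s.ls l').un a ha' z (mem_filter.1 hz).1 w (mem_filter.1 hw).1 hzw
  have c3 := card_union_add_card_inter A1 A2
  have c4 : (A1 ∪ A2).card ≤ n + 1 := by
    rw [← s.cardO]; exact card_le_univ _
  have c5 : 2 ≤ ((A1 ∩ A2) \ {a, b}).card := by
    have e1 := le_card_sdiff ({a, b} : Finset Ω) (A1 ∩ A2)
    have e2 : ({a, b} : Finset Ω).card ≤ 2 := card_le_two
    have e3 := (s.card_SX (by omega) l).1
    have e4 := (s.card_SX (by omega) l').1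
    unfold Pop at hp hp'
    omega
  -- each such point gives the point of intersection
  have key : ∀ c ∈ (A1 ∩ A2) \ {a, b}, ∃ w, s.I w l ∧ s.I w l' ∧ s.σ w c = b := by
    intro c hc
    obtain ⟨hc1, hc2⟩ := Finset.mem_sdiff.1 hc
    obtain ⟨hc3, hc4⟩ := mem_inter.1 hc1
    have hca : c ≠ a := fun e => hc2 (by simp [e])
    have hcb : c ≠ b := fun e => hc2 (by simp [e])
    obtain ⟨z, hz, hzc⟩ := mem_image.1 hc3
    obtain ⟨z', hz', hzc'⟩ := mem_image.1 hc4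
    obtain ⟨hzS, w, hw, htw⟩ := mem_filter.1 hz
    obtain ⟨hzS', w', hw', htw'⟩ := mem_filter.1 hz'
    have i1 : s.σ w c = b := by rw [hb, htw, Equiv.Perm.mul_apply, hzc]
    have i2 : s.σ w' c = b := by rw [hb, htw', Equiv.Perm.mul_apply, hzc']
    have i3 : s.σ z c = a := by
      rw [← hzc, ← Equiv.Perm.mul_apply, s.inv]; rfl
    have i4 : s.σ z' c = a := by
      rw [← hzc', ← Equiv.Perm.mul_apply, s.inv]; rfl
    have i5 : s.σ w a = s.σ w' a := by
      have j1 : t c = s.σ w a := by rw [htw, Equiv.Perm.mul_apply, i3]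
      have j2 : t c = s.σ w' a := by rw [htw', Equiv.Perm.mul_apply, i4]
      rw [← j1, j2]
    have hww : w = w' := by
      by_contra hne2
      obtain ⟨m, hm, hm'⟩ := s.line w w'
      have q1 : s.J c m := by
        by_contra hJ
        exact hne2 (s.un m c w w' hJ hm hm' (by rw [i1, i2]))
      have q2 : s.J a m := by
        by_contra hJ
        exact hne2 (s.un m a w w' hJ hm hm' i5)
      have q3 : s.J b m := by
        rw [← i1]; exact (s.pres w m c hm).2 q1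
      rcases s.J2 m a b c q2 q3 q1 with e | e | e
      · exact hba e.symm
      · exact hcb e.symm
      · exact hca e.symm
    subst hww
    exact ⟨w, s.mem_SX.1 hw, s.mem_SX.1 hw', i1⟩
  obtain ⟨c, hc, d, hd, hcd⟩ := one_lt_card.1 (show 1 < ((A1 ∩ A2) \ {a, b}).card by omega)
  obtain ⟨w, hw1, hw2, hwc⟩ := key c hc
  obtain ⟨v, hv1, hv2, hvd⟩ := key d hd
  have hwv : w = v := by
    by_contra hne3
    exact hll (s.line_un w v l l' hne3 hw1 hv1 hw2 hv2)
  subst hwv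
  exact hcd ((s.σ w).injective (by rw [hwc, hvd]))

lemma sig_ne (hn : 2 ≤ n) {l : Λ} {x y : X} (hx : s.I x l) (hy : s.I y l)
    (h : s.σ x = s.σ y) : x = y := by
  obtain ⟨a, ha⟩ := s.UO_ne hn l
  exact s.un l a x y (s.mem_UO.1 ha) hx hy (by rw [h])

lemma prod_ne (hn : 2 ≤ n) {x y : X} (h : x ≠ y) : s.σ x * s.σ y ≠ 1 := by
  intro hc
  obtain ⟨l, hx, hy⟩ := s.line x y
  apply h
  apply s.sig_ne hn hx hy
  have h1 : s.σ x * s.σ y * s.σ y = s.σ y := by rw [hc, one_mul]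
  rwa [mul_assoc, s.inv, mul_one] at h1

/-- the pairs of distinct points with an unpopular product -/
noncomputable def Unp : Finset (X × X) :=
  univ.filter (fun p => p.1 ≠ p.2 ∧ ∃ l, s.I p.1 l ∧ s.I p.2 l ∧
    ¬ Pop s.σ (s.SX l) (s.σ p.1 * s.σ p.2))

/-- the collinear triples of points whose product is not an involution -/
noncomputable def Bad : Finset ((X × X) × X) :=
  univ.filter (fun t => (∃ l, s.I t.1.1 l ∧ s.I t.1.2 l ∧ s.I t.2 l) ∧
    ¬ (s.σ t.1.1 * s.σ t.1.2 * s.σ t.2 = s.σ t.2 * s.σ t.1.2 * s.σ t.1.1))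

lemma mem_Bad {t : (X × X) × X} : t ∈ s.Bad ↔ (∃ l, s.I t.1.1 l ∧ s.I t.1.2 l ∧ s.I t.2 l) ∧
    ¬ (s.σ t.1.1 * s.σ t.1.2 * s.σ t.2 = s.σ t.2 * s.σ t.1.2 * s.σ t.1.1) := by
  unfold Bad
  rw [mem_filter]
  exact ⟨fun h => h.2, fun h => ⟨mem_univ _, h⟩⟩

lemma sum_bad : ∑ l, (bad s.σ (s.SX l)).card ≤ s.Bad.card := by
  have e1 : ∑ l, (bad s.σ (s.SX l)).card = (univ.sigma (fun l => bad s.σ (s.SX l))).card :=
    (card_sigma _ _).symm
  rw [e1]
  apply card_le_card_of_injOn (fun u => u.2)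
  · rintro ⟨l, ⟨⟨x, y⟩, z⟩⟩ hu
    have hu' := (mem_sigma.1 (mem_coe.1 hu)).2
    obtain ⟨h1, h2⟩ := mem_filter.1 hu'
    obtain ⟨h3, h4⟩ := mem_product.1 h1
    obtain ⟨h5, h6⟩ := mem_product.1 h3
    exact mem_coe.2 (mem_filter.2 ⟨mem_univ _, ⟨l, s.mem_SX.1 h5, s.mem_SX.1 h6, s.mem_SX.1 h4⟩, h2⟩)
  · rintro ⟨l, ⟨⟨x, y⟩, z⟩⟩ hu ⟨l', ⟨⟨x', y'⟩, z'⟩⟩ hu' heq
    simp only [Prod.mk.injEq] at heq
    obtain ⟨⟨rfl, rfl⟩, rfl⟩ := heq
    have hu1 := (mem_sigma.1 (mem_coe.1 hu)).2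
    obtain ⟨h1, h2⟩ := mem_filter.1 hu1
    obtain ⟨h3, h4⟩ := mem_product.1 h1
    obtain ⟨h5, h6⟩ := mem_product.1 h3
    have hu2 := (mem_sigma.1 (mem_coe.1 hu')).2
    obtain ⟨h1', h2'⟩ := mem_filter.1 hu2
    obtain ⟨h3', h4'⟩ := mem_product.1 h1'
    obtain ⟨h5', h6'⟩ := mem_product.1 h3'
    have hxy : x ≠ y := by
      rintro rfl
      apply h2
      simp only
      rw [s.inv, one_mul, mul_assoc, s.inv, mul_one]
    have := s.line_un x y l l' hxy (s.mem_SX.1 h5) (s.mem_SX.1 h6) (s.mem_SX.1 h5') (s.mem_SX.1 h6')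
    rw [this]

lemma Unp_le (hn : 2 ≤ n) : (n - 1) * s.Unp.card ≤ 32 * s.Bad.card := by
  have h1 : s.Unp ⊆ univ.biUnion (fun l => unp s.σ (s.SX l)) := by
    intro p hp
    obtain ⟨h2, l, h3, h4, h5⟩ := (mem_filter.1 hp).2
    exact mem_biUnion.2 ⟨l, mem_univ _, mem_filter.2 ⟨mem_product.2 ⟨s.mem_SX.2 h3, s.mem_SX.2 h4⟩, h5⟩⟩
  have h2 : s.Unp.card ≤ ∑ l, (unp s.σ (s.SX l)).card := (card_le_card h1).trans card_biUnion_le
  calc (n - 1) * s.Unp.card ≤ (n - 1) * ∑ l, (unp s.σ (s.SX l)).card := Nat.mul_le_mul_left _ h2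
    _ = ∑ l, (n - 1) * (unp s.σ (s.SX l)).card := by rw [mul_sum]
    _ ≤ ∑ l, 32 * (bad s.σ (s.SX l)).card := by
        apply sum_le_sum
        intro l _
        have e1 := (s.ls l).unp_le (s.UO_ne hn l)
        have e2 := (s.card_SX hn l).1
        have e3 : n - 1 ≤ (s.SX l).card := by omega
        exact (Nat.mul_le_mul_right _ e3).trans e1
    _ = 32 * ∑ l, (bad s.σ (s.SX l)).card := by rw [mul_sum]
    _ ≤ _ := Nat.mul_le_mul_left _ s.sum_bad

end Sys

end Pool.Agent.H180.Pa
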